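import Pool.Agent.Work.MP_f1a024_nt.TZ.Stmts
import Pool.Agent.Work.MP_f1a024_nt.TU.LB1

/-!
# Item ZB of block TZ: integer combinations of values of formal series
-/

set_option autoImplicit false

namespace Pool.Agent.Work.MP_f1a024_nt.TZ

open Finset MvPolynomial Filter
open Pool.Agent.Work.MP_f1a024_nt.AH (PG val D1 D2 D4)
open Pool.Agent.Work.MP_f1a024_nt.TU
open Pool.Agent.Work.MP_f1a024_nt.TV

theorem ZB_ser (hZS : ZS) {κ : ℕ} (X : Cx κ) {ι : Type} (f : ι → ℕ → ℝ) (g : ι → Rv κ) (j i : ι)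
    (hf : ∀ i, Ser X (f i)) : Ser X (LB1_f X f g j i) := by
  obtain ⟨-, hadd, hmul, hev, hcon, -⟩ := hZS κ X
  have h1 := hmul _ _ (hev (g j)) (hf i)
  have h2 := hmul _ _ (hev (-(g i))) (hf j)
  refine hcon _ _ (Eventually.of_forall fun l => ?_) (hadd _ _ h1 h2)
  unfold LB1_f
  rw [map_neg, Rat.cast_neg]
  ring

/-- the combination of the eliminated sequences is a multiple of the old one -/
theorem ZB_comb {κ : ℕ} (X : Cx κ) {ι : Type} [Fintype ι] [DecidableEq ι] (f : ι → ℕ → ℝ)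
    (g : ι → Rv κ) (j : ι) (x : ℕ → ι → ℤ) (l : ℕ)
    (hl : ∑ i, evw (X.w l) (g i) * (x l i : ℚ) = 0) :
    (∑ i, (x l i : ℝ) * f i l) * ((evw (X.w l) (g j) : ℚ) : ℝ) =
      ∑ i : {i // i ≠ j}, (x l i : ℝ) * LB1_f X f g j i l := by
  have h2 : (∑ i, ((evw (X.w l) (g i) : ℚ) : ℝ) * (x l i : ℝ)) = 0 := by
    have h3 : ((∑ i, evw (X.w l) (g i) * (x l i : ℚ) : ℚ) : ℝ) = 0 := by
      rw [hl, Rat.cast_zero]
    rw [← h3]
    push_cast
    rfl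
  rw [LB1_sum _ j] at h2
  rw [LB1_sum _ j, add_mul, Finset.sum_mul]
  have h4 : ∑ i : {i // i ≠ j}, ((x l i : ℤ) : ℝ) * LB1_f X f g j i l =
      ∑ i : {i // i ≠ j}, ((x l i : ℤ) : ℝ) * f i l * ((evw (X.w l) (g j) : ℚ) : ℝ) -
        (∑ i : {i // i ≠ j}, ((evw (X.w l) (g i) : ℚ) : ℝ) * ((x l i : ℤ) : ℝ)) * f j l := by
    rw [Finset.sum_mul, ← Finset.sum_sub_distrib]
    refine Finset.sum_congr rfl fun i _ => ?_
    unfold LB1_f
    ring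
  rw [h4]
  have h5 : (∑ i : {i // i ≠ j}, ((evw (X.w l) (g i) : ℚ) : ℝ) * ((x l i : ℤ) : ℝ)) =
      -(((evw (X.w l) (g j) : ℚ) : ℝ) * ((x l j : ℤ) : ℝ)) := by linarith
  rw [h5]
  ring

theorem ZB_aux (hNA : NA) (hC1 : C1) (hSU : SU) (hLA : LA) (hZS : ZS) (hZZ : ZZ) (N : ℕ) :
    ∀ (κ : ℕ), 0 < κ → ∀ (X : Cx κ) (ι : Type) [Fintype ι] [DecidableEq ι] (f : ι → ℕ → ℝ)
    (x : ℕ → ι → ℤ), Fintype.card ι = N → (∀ i, Ser X (f i)) →
    (∀ i, Bdd X fun l => (x l i : ℝ)) →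
    (Neg X fun l => ∑ i, (x l i : ℝ) * f i l) →
    ∀ᶠ l : ℕ in (X.𝒰 : Filter ℕ), ∑ i, (x l i : ℝ) * f i l = 0 := by
  induction N using Nat.strong_induction_on with
  | _ N IH =>
  intro κ hκ X ι _ _ f x hcard hf hxB hneg
  obtain ⟨-, hmulN, -, hconN, -, -, -, -, -, -, -⟩ := hNA κ X
  obtain ⟨hap, -⟩ := hZS κ X
  by_cases hx0 : ∀ᶠ l : ℕ in (X.𝒰 : Filter ℕ), x l = 0
  · refine hx0.mono fun l hl => ?_
    refine Finset.sum_eq_zero fun i _ => ?_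
    rw [hl, Pi.zero_apply, Int.cast_zero, zero_mul]
  have hx : ∀ᶠ l : ℕ in (X.𝒰 : Filter ℕ), x l ≠ 0 := Ultrafilter.eventually_not.2 hx0
  by_cases hall : ∀ i, Neg X (f i)
  · have h1 : ∀ᶠ l : ℕ in (X.𝒰 : Filter ℕ), ∀ i, f i l = 0 :=
      Filter.eventually_all.2 fun i => hZZ κ X (f i) (hf i) (hall i)
    refine h1.mono fun l hl => ?_
    refine Finset.sum_eq_zero fun i _ => ?_
    rw [hl i, mul_zero]
  obtain ⟨k, hk⟩ := not_forall.1 hall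
  obtain ⟨g, hg, hgx⟩ := hLA κ hκ X ι f x k (fun i => hap _ (hf i)) hk hx hxB hneg
  obtain ⟨j, hj⟩ := Function.ne_iff.1 hg
  have hj' : g j ≠ 0 := hj
  have hlt : Fintype.card {i // i ≠ j} < N := by
    rw [← hcard]
    exact Fintype.card_subtype_lt (x := j) (fun h => h rfl)
  have hneg' : Neg X fun l => ∑ i : {i // i ≠ j}, (x l i : ℝ) * LB1_f X f g j i l := by
    have h1 := hmulN _ _ hneg ((hC1 κ).2.2.2.2.2.2.2.2 X (g j))
    exact hconN _ _ (hgx.mono fun l hl => ZB_comb X f g j x l hl) h1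
  have hIH := IH _ hlt κ hκ X {i // i ≠ j} (fun i => LB1_f X f g j i) (fun l i => x l i) rfl
    (fun i => ZB_ser hZS X f g j i hf) (fun i => hxB i) hneg'
  filter_upwards [hIH, hgx, hSU κ X (g j) hj'] with l h1 h2 h3
  have h4 := ZB_comb X f g j x l h2
  rw [h1] at h4
  have h5 : ((evw (X.w l) (g j) : ℚ) : ℝ) ≠ 0 := by exact_mod_cast h3
  exact (mul_eq_zero.1 h4).resolve_right h5

theorem prfZB (hNA : NA) (hC1 : C1) (hSU : SU) (hLA : LA) (hZS : ZS) (hZZ : ZZ) : ZB := by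
  intro κ hκ X ι _ _ f x
  exact ZB_aux hNA hC1 hSU hLA hZS hZZ (Fintype.card ι) κ hκ X ι f x rfl

end Pool.Agent.Work.MP_f1a024_nt.TZ
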