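import Pool.Agent.Work.MP_f1a024_nt.TZ.Stmts

/-!
# Block TZ, item ZC1: the limit function is eventually `1` or `-1` on the primes
-/

namespace Pool.Agent.Work.MP_f1a024_nt.TZ

open Finset Filter
open Pool.Agent.Work.MP_f1a024_nt.AH (val)
open Pool.Agent.Work.MP_f1a024_nt.TU
open Pool.Agent.Work.MP_f1a024_nt.TV

theorem ZC1_cm_one : CM (fun _ => 1) :=
  ⟨rfl, fun _ _ => (mul_one 1).symm, fun _ => Or.inr (Or.inl rfl)⟩

/-- products of powers of zeta values are values of formal series -/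
theorem ZC1_tz (hZS : ZS) (hZL : ZL) {κ : ℕ} (X : Cx κ) {k d : ℕ} (n : ℕ → Fin k → ℕ)
    (hn : Arg X n) (J : Fin k → Fin (d + 1)) : Ser X fun l => tz (n l) J := by
  obtain ⟨-, -, -, -, -, -, h7, h8⟩ := hZS κ X
  unfold tz
  refine h7 (Fin k) Finset.univ (fun j l => ze (n l j) ^ (J j : ℕ)) ?_
  intro j _
  refine h8 (fun l => ze (n l j)) (J j : ℕ) ?_
  exact hZL κ X k n hn (fun _ => 1) ZC1_cm_one j

/-- the two values are different -/
theorem ZC1_ne (hZQ : ZQ) {κ : ℕ} (X : Cx κ) {k : ℕ} (n : ℕ → Fin k → ℕ) (hn : Arg X n)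
    (a : Fin k) (F : ℕ → ℕ → ℚ) (f : ℕ → ℚ) (σ : ℚ) (N₀ : ℕ) (hF : ∀ l, CM (F l))
    (hFN : ∀ l, NC (F l)) (hf : CM f)
    (hlim : ∀ s : ℕ, ∀ᶠ l : ℕ in (X.𝒰 : Filter ℕ), F l s = f s)
    (hσ : σ = 1 ∨ σ = -1) (hfσ : ∀ q : ℕ, q.Prime → N₀ < q → f q = σ) :
    ∀ᶠ l : ℕ in (X.𝒰 : Filter ℕ),
      val (fq (F l) ∅) (n l a) ≠ val (fq f ∅) (n l a) := by
  have h1 : ∀ᶠ l : ℕ in (X.𝒰 : Filter ℕ), ∀ s ∈ Finset.range (N₀ + 1), F l s = f s :=
    (Filter.eventually_all_finset _).2 fun s _ => hlim s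
  filter_upwards [h1, X.hm 2, hn.2] with l hl hm hnl
  obtain ⟨q, q', hq, hq', hqN, hqN', hne⟩ := hFN l N₀
  have hn2 : 2 ≤ n l a := hm.trans (hnl.2 a)
  have key : ∀ q₁ : ℕ, q₁.Prime → N₀ < q₁ → F l q₁ ≠ σ →
      val (fq (F l) ∅) (n l a) ≠ val (fq f ∅) (n l a) := by
    intro q₁ hq₁ hqN₁ hne₁
    refine hZQ f (F l) σ N₀ q₁ hf (hF l) hσ hfσ ?_ hq₁ hqN₁ hne₁ (n l a) hn2
    intro p _ hp
    exact hl p (Finset.mem_range.2 (Nat.lt_succ_of_le hp))
  by_cases h : F l q = σ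
  · refine key q' hq' hqN' fun h' => hne ?_
    rw [h, h']
  · exact key q hq hqN h

theorem prfZC1 (hNA : NA) (hAX : AX) (hZS : ZS) (hZL : ZL) (hZB : ZB) (hZN : ZN)
    (hZQ : ZQ) (hZT : ZT) (hZ1 : Z1) : ZC1 := by
  intro κ hκ X k d n a F f x σ N₀ hn hF hFN hf hlim hx0 hxB hσ hfσ
  have hne := ZC1_ne hZQ X n hn a F f σ N₀ hF hFN hf hlim hσ hfσ
  have htz : ∀ J : Fin k → Fin (d + 1), Ser X fun l => tz (n l) J :=
    fun J => ZC1_tz hZS hZL X n hn J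
  have hvS : Ser X fun l => val (fq f ∅) (n l a) := hZL κ X k n hn f hf a
  have hneg := hZN κ X k n hn F f hF hf hlim a
  obtain ⟨-, -, -, na4, -, -, na7, na8, na9, -, -⟩ := hNA κ X
  obtain ⟨zs1, -, zs3, -, -, -, -, zs8⟩ := hZS κ X
  obtain ⟨ax1, -⟩ := hAX κ X
  have hbd : ∀ y : ℕ → ℝ, Ser X y → Bdd X y := fun y hy => ax1 ∅ y (zs1 y hy)
  -- the coefficients
  have hc : ∀ e : Fin (d + 1), Bdd X fun l => ∑ J : Fin k → Fin (d + 1),
      (x l (e, J) : ℝ) * tz (n l) J := by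
    intro e
    refine na9 (Fin k → Fin (d + 1)) Finset.univ
      (fun J l => (x l (e, J) : ℝ) * tz (n l) J) ?_
    intro J _
    exact na7 (fun l => (x l (e, J) : ℝ)) (fun l => tz (n l) J) (hxB (e, J)) (hbd _ (htz J))
  -- the Taylor coefficients are integer combinations of values of formal series
  have hD : ∀ (j : Fin (d + 1)) (l : ℕ), ∑ e : Fin (d + 1),
      (((e : ℕ).choose (j : ℕ) : ℕ) : ℝ) * (∑ J : Fin k → Fin (d + 1),
        (x l (e, J) : ℝ) * tz (n l) J) * val (fq f ∅) (n l a) ^ ((e : ℕ) - (j : ℕ)) =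
      ∑ w : Fin (d + 1) × (Fin k → Fin (d + 1)),
        ((((w.1 : ℕ).choose (j : ℕ) : ℕ) * x l w : ℤ) : ℝ) *
          (val (fq f ∅) (n l a) ^ ((w.1 : ℕ) - (j : ℕ)) * tz (n l) w.2) := by
    intro j l
    rw [Fintype.sum_prod_type]
    refine Finset.sum_congr rfl fun e _ => ?_
    rw [Finset.mul_sum, Finset.sum_mul]
    refine Finset.sum_congr rfl fun J _ => ?_
    push_cast
    ring
  have hE : ∀ᶠ l : ℕ in (X.𝒰 : Filter ℕ), ∃ e : Fin (d + 1), (∃ J, x l (e, J) ≠ 0) ∧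
      ∀ e' : Fin (d + 1), e < e' → ∀ J, x l (e', J) = 0 := by
    filter_upwards [hx0] with l hl
    obtain ⟨w, hw⟩ := Function.ne_iff.1 hl
    have hS : (Finset.univ.filter fun e : Fin (d + 1) => ∃ J, x l (e, J) ≠ 0).Nonempty :=
      ⟨w.1, Finset.mem_filter.2 ⟨Finset.mem_univ _, w.2, hw⟩⟩
    refine ⟨Finset.max' _ hS, (Finset.mem_filter.1 (Finset.max'_mem _ hS)).2, ?_⟩
    intro e' he' J
    by_contra hcon
    exact absurd (Finset.le_max' _ e' (Finset.mem_filter.2 ⟨Finset.mem_univ _, J, hcon⟩))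
      (not_le.2 he')
  obtain ⟨e₀, he₀⟩ := Ultrafilter.eventually_exists_iff.1 hE
  have hmain := hZT κ X d (fun e l => ∑ J : Fin k → Fin (d + 1), (x l (e, J) : ℝ) * tz (n l) J)
    (fun l => val (fq (F l) ∅) (n l a)) (fun l => val (fq f ∅) (n l a)) hc (hbd _ hvS) hneg hne
    ?_ ?_
  · filter_upwards [hmain] with l hl
    intro h0
    apply hl
    rw [← h0, Fintype.sum_prod_type]
    refine Finset.sum_congr rfl fun e _ => ?_
    rw [Finset.sum_mul]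
    refine Finset.sum_congr rfl fun J _ => ?_
    ring
  · intro j hj
    simp only [hD] at hj ⊢
    refine hZB κ hκ X (Fin (d + 1) × (Fin k → Fin (d + 1)))
      (fun w l => val (fq f ∅) (n l a) ^ ((w.1 : ℕ) - (j : ℕ)) * tz (n l) w.2)
      (fun l w => (((w.1 : ℕ).choose (j : ℕ) : ℕ) : ℤ) * x l w) ?_ ?_ hj
    · intro w
      exact zs3 _ _ (zs8 _ _ hvS) (htz w.2)
    · intro w
      have h1 := na7 (fun _ => (((w.1 : ℕ).choose (j : ℕ) : ℕ) : ℝ)) (fun l => (x l w : ℝ))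
        (na8 _) (hxB w)
      refine (?_ : (fun l => (((((w.1 : ℕ).choose (j : ℕ) : ℕ) : ℤ) * x l w : ℤ) : ℝ)) =
        fun l => (((w.1 : ℕ).choose (j : ℕ) : ℕ) : ℝ) * (x l w : ℝ)) ▸ h1
      funext l
      push_cast
      ring
  · refine ⟨e₀, fun hN => ?_⟩
    have h1 : ¬ Neg X fun l => ∑ J : Fin k → Fin (d + 1), (x l (e₀, J) : ℝ) * tz (n l) J := by
      refine (hZ1 κ hκ X k d n hn).2 (fun l J => x l (e₀, J)) ?_ fun J => hxB (e₀, J)
      filter_upwards [he₀] with l hl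
      obtain ⟨⟨J, hJ⟩, -⟩ := hl
      exact Function.ne_iff.2 ⟨J, hJ⟩
    apply h1
    refine na4 _ _ ?_ hN
    filter_upwards [he₀] with l hl
    rw [Finset.sum_eq_single e₀]
    · simp
    · intro e _ hee
      rcases lt_or_gt_of_ne hee with h | h
      · have h2 : (e : ℕ).choose (e₀ : ℕ) = 0 := Nat.choose_eq_zero_of_lt h
        rw [h2]
        simp
      · have h2 : ∑ J : Fin k → Fin (d + 1), (x l (e, J) : ℝ) * tz (n l) J = 0 := by
          refine Finset.sum_eq_zero fun J _ => ?_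
          rw [hl.2 e h J]
          simp
        rw [h2]
        simp
    · intro h
      exact absurd (Finset.mem_univ _) h

end Pool.Agent.Work.MP_f1a024_nt.TZ
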