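import Pool.Agent.Work.MP_f1a024_nt.TZ.Stmts

/-!
Block TZ, item ZC2: the limit function is eventually `0` on the primes.
-/

namespace Pool.Agent.Work.MP_f1a024_nt.TZ

open Finset MvPolynomial Filter
open Pool.Agent.Work.MP_f1a024_nt.AH (PG val D1 D2 D4)
open Pool.Agent.Work.MP_f1a024_nt.TU
open Pool.Agent.Work.MP_f1a024_nt.TV

/-- the exponent of `q ^ (-n)` -/
noncomputable def ZC2_s {κ : ℕ} (a : Fin κ → ℕ) : Fin κ →₀ ℕ := Finsupp.equivFunOnFinite.symm a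

theorem ZC2_s_apply {κ : ℕ} (a : Fin κ → ℕ) (i : Fin κ) : ZC2_s a i = a i := rfl

theorem ZC2_val {κ : ℕ} (q : ℕ) (hq : 0 < q) (w : Fin κ → ℕ) (a : Fin κ → ℕ) (c : ℤ) (n : ℕ)
    (h : (n : ℤ) = ∑ i, (a i : ℤ) * (w i : ℤ) + c) :
    (MvPolynomial.aeval (fun i => ((q : ℚ) ^ w i)⁻¹) (monomial (ZC2_s a) ((q : ℚ) ^ (-c))) : ℚ) =
      ((q : ℚ) ^ n)⁻¹ := by
  have hq0 : (q : ℚ) ≠ 0 := by exact_mod_cast hq.ne'
  rw [MvPolynomial.aeval_monomial, Finsupp.prod_fintype _ _ (fun i => pow_zero _)]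
  have h1 : ∏ i, (((q : ℚ) ^ w i)⁻¹) ^ (ZC2_s a i) = ((q : ℚ) ^ (∑ i, a i * w i))⁻¹ := by
    rw [← Finset.prod_pow_eq_pow_sum, ← Finset.prod_inv_distrib]
    refine Finset.prod_congr rfl fun i _ => ?_
    rw [ZC2_s_apply, inv_pow, ← pow_mul, mul_comm]
  rw [h1]
  show (q : ℚ) ^ (-c) * ((q : ℚ) ^ (∑ i, a i * w i))⁻¹ = ((q : ℚ) ^ n)⁻¹
  rw [← zpow_natCast (q : ℚ) (∑ i, a i * w i), ← zpow_natCast (q : ℚ) n, ← zpow_neg, ← zpow_neg,
    ← zpow_add₀ hq0]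
  congr 1
  rw [h]
  push_cast
  ring

/-- the monomial with the value `q ^ (-n)` -/
noncomputable def ZC2_mon {κ : ℕ} (q : Nat.Primes) (a : Fin κ → ℕ) (c : ℤ) : Rv κ :=
  MvPolynomial.rename (fun i => ((q, i) : Vr κ)) (monomial (ZC2_s a) (((q : ℕ) : ℚ) ^ (-c)))

theorem ZC2_mon_val {κ : ℕ} (w : Fin κ → ℕ) (q : Nat.Primes) (a : Fin κ → ℕ) (c : ℤ) (n : ℕ)
    (h : (n : ℤ) = ∑ i, (a i : ℤ) * (w i : ℤ) + c) :
    evw w (ZC2_mon q a c) = (((q : ℕ) : ℚ) ^ n)⁻¹ := by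
  unfold evw ZC2_mon
  rw [MvPolynomial.aeval_rename]
  exact ZC2_val (q : ℕ) q.2.pos w a c n h

/-- the product of the Euler factors -/
noncomputable def ZC2_g {κ : ℕ} (f : ℕ → ℚ) (Q : Finset Nat.Primes) (a : Fin κ → ℕ) (c : ℤ) : Rv κ :=
  ∏ q ∈ Q, (1 - C (f q) * ZC2_mon q a c)

theorem ZC2_g_val {κ : ℕ} (f : ℕ → ℚ) (Q : Finset Nat.Primes) (w : Fin κ → ℕ) (a : Fin κ → ℕ)
    (c : ℤ) (n : ℕ) (h : (n : ℤ) = ∑ i, (a i : ℤ) * (w i : ℤ) + c) :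
    ((evw w (ZC2_g f Q a c) : ℚ) : ℝ) =
      ∏ q ∈ Q, (1 - ((f q : ℚ) : ℝ) * (((q : ℕ) : ℝ) ^ n)⁻¹) := by
  unfold ZC2_g
  rw [map_prod, Rat.cast_prod]
  refine Finset.prod_congr rfl fun q _ => ?_
  have hC : evw w (C (f q)) = f q := by
    unfold evw
    rw [MvPolynomial.aeval_C]
    rfl
  rw [map_sub, map_one, map_mul, hC, ZC2_mon_val w q a c n h]
  push_cast
  rfl

/-- the primes up to `N` -/
def ZC2_Q (N : ℕ) : Finset Nat.Primes := (Finset.range (N + 1)).subtype Nat.Prime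

theorem ZC2_mem (N : ℕ) (q : Nat.Primes) : q ∈ ZC2_Q N ↔ (q : ℕ) ≤ N := by
  exact Finset.mem_subtype.trans (Finset.mem_range.trans Nat.lt_succ_iff)

theorem ZC2_fq (f : ℕ → ℚ) (Q : Finset Nat.Primes) (s : ℕ) :
    fq f Q s = if s = 0 then 0 else if ∀ q ∈ Q, ¬ (q : ℕ) ∣ s then f s else 0 := rfl

theorem ZC2_one (f : ℕ → ℚ) (hf : CM f) (N : ℕ) (h0 : ∀ q : ℕ, q.Prime → N < q → f q = 0) (n : ℕ) :
    val (fq f (ZC2_Q N)) n = 1 := by
  show ∑' s : ℕ, ((fq f (ZC2_Q N) s : ℚ) : ℝ) / (s : ℝ) ^ n = 1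
  rw [tsum_eq_single 1]
  · have h1 : fq f (ZC2_Q N) 1 = 1 := by
      rw [ZC2_fq, if_neg one_ne_zero, if_pos, hf.1]
      intro q _ hq
      exact q.2.one_lt.ne' (Nat.dvd_one.1 hq)
    rw [h1]
    simp
  · intro s hs
    have h1 : fq f (ZC2_Q N) s = 0 := by
      rw [ZC2_fq]
      by_cases hs0 : s = 0
      · rw [if_pos hs0]
      · rw [if_neg hs0]
        obtain ⟨p, hp, hps⟩ := Nat.exists_prime_and_dvd hs
        by_cases hpN : p ≤ N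
        · rw [if_neg]
          intro hall
          exact hall ⟨p, hp⟩ ((ZC2_mem N ⟨p, hp⟩).2 hpN) hps
        · obtain ⟨t, rfl⟩ := hps
          rw [hf.2.1, h0 p hp (not_le.1 hpN), zero_mul, ite_self]
    rw [h1]
    simp

theorem ZC2_pigeon {β : Type} [Finite β] (𝒰 : Ultrafilter ℕ) (F : ℕ → β) :
    ∃ b, ∀ᶠ l : ℕ in (𝒰 : Filter ℕ), F l = b := by
  obtain ⟨b, hb⟩ := Ultrafilter.eq_pure_of_finite (𝒰.map F)
  refine ⟨b, ?_⟩
  have h1 : ({b} : Set β) ∈ (𝒰.map F) := by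
    rw [hb]
    exact Ultrafilter.mem_pure.2 rfl
  exact h1

open Classical in
/-- the exponent of the variable `X` which belongs to `J` -/
noncomputable def ZC2_al {k d : ℕ} (x : Fin (d + 1) × (Fin k → Fin (d + 1)) → ℤ)
    (J : Fin k → Fin (d + 1)) : Fin (d + 1) :=
  if h : ∃ e, x (e, J) ≠ 0 then h.choose else 0

theorem ZC2_al_spec {k d : ℕ} (x : Fin (d + 1) × (Fin k → Fin (d + 1)) → ℤ) (n : Fin k → ℕ)
    (a : Fin k) (ha : 0 < n a) (hW : ∃ W : ℕ, ∀ v, x v ≠ 0 →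
      (v.1 : ℕ) * n a + ∑ j, (v.2 j : ℕ) * n j = W) (e : Fin (d + 1)) (J : Fin k → Fin (d + 1))
    (h : x (e, J) ≠ 0) : e = ZC2_al x J := by
  obtain ⟨W, hW⟩ := hW
  have hex : ∃ e, x (e, J) ≠ 0 := ⟨e, h⟩
  unfold ZC2_al
  rw [dif_pos hex]
  have h1 := hW (e, J) h
  have h2 := hW (hex.choose, J) hex.choose_spec
  have h3 : (e : ℕ) * n a = (hex.choose : ℕ) * n a := by
    simp only at h1 h2
    omega
  exact Fin.ext (Nat.eq_of_mul_eq_mul_right ha h3)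

theorem ZC2_sum {k d : ℕ} (x : Fin (d + 1) × (Fin k → Fin (d + 1)) → ℤ) (α : (Fin k → Fin (d + 1)) →
    Fin (d + 1)) (h : ∀ e J, x (e, J) ≠ 0 → e = α J) (u G : ℝ) (huG : u * G = 1)
    (T : (Fin k → Fin (d + 1)) → ℝ) :
    (∑ v, (x v : ℝ) * (u ^ (v.1 : ℕ) * T v.2)) * G ^ d =
      ∑ J, (x (α J, J) : ℝ) * (G ^ (d - (α J : ℕ)) * T J) := by
  rw [Fintype.sum_prod_type, Finset.sum_comm, Finset.sum_mul]
  refine Finset.sum_congr rfl fun J _ => ?_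
  rw [Finset.sum_eq_single (α J)]
  · have h1 : G ^ d = G ^ (d - (α J : ℕ)) * G ^ (α J : ℕ) := by
      rw [← pow_add]
      congr 1
      have := (α J).2
      omega
    have h2 : u ^ (α J : ℕ) * G ^ (α J : ℕ) = 1 := by rw [← mul_pow, huG, one_pow]
    calc (x (α J, J) : ℝ) * (u ^ (α J : ℕ) * T J) * G ^ d
        = (x (α J, J) : ℝ) * (G ^ (d - (α J : ℕ)) * T J) * (u ^ (α J : ℕ) * G ^ (α J : ℕ)) := by
          rw [h1]; ring
      _ = _ := by rw [h2, mul_one]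
  · intro e _ he
    have hx0 : x (e, J) = 0 := by
      by_contra hne
      exact he (h e J hne)
    rw [hx0]
    simp
  · intro hn
    exact absurd (Finset.mem_univ _) hn

/-- ZC2 -/
theorem prfZC2 (hNA : NA) (hC1 : C1) (hAX : AX) (hVTA : VTA) (hLB1 : LB1) (hZP : ZP) (hZ1 : Z1) :
    ZC2 := by
  intro κ hκ X k d n a f x N₀ hArg hf hx hbdd hhom h0 hneg
  obtain ⟨⟨A, c, hRep⟩, hinj⟩ := id hArg
  set g : Rv κ := ZC2_g f (ZC2_Q N₀) (A a) (c a) with hg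
  -- the value of `g`
  have hval : ∀ᶠ l : ℕ in (X.𝒰 : Filter ℕ),
      val (fq f ∅) (n l a) * ((evw (X.w l) g : ℚ) : ℝ) = 1 := by
    filter_upwards [hRep, hinj, X.hm 2] with l h1 h2 h3
    have hn2 : 2 ≤ n l a := h3.trans (h2.2 a)
    rw [hg, ZC2_g_val f (ZC2_Q N₀) (X.w l) (A a) (c a) (n l a) (h1 a), hZP.1 f hf (ZC2_Q N₀) (n l a) hn2]
    exact ZC2_one f hf N₀ h0 (n l a)
  have hg0 : g ≠ 0 := by
    intro h
    obtain ⟨l, hl⟩ := hval.exists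
    rw [h, map_zero] at hl
    simp at hl
  -- the exponents
  obtain ⟨α, hα⟩ := ZC2_pigeon X.𝒰 (fun l => ZC2_al (x l))
  have huni : ∀ᶠ l : ℕ in (X.𝒰 : Filter ℕ), ∀ e J, x l (e, J) ≠ 0 → e = α J := by
    filter_upwards [hα, hinj, X.hm 1, hhom] with l h1 h2 h3 h4 e J h5
    rw [← h1]
    exact ZC2_al_spec (x l) (n l) a (lt_of_lt_of_le zero_lt_one (h3.trans (h2.2 a))) h4 e J h5
  -- the elimination
  have hCM1 : CM (fun _ => 1) := ⟨rfl, fun _ _ => by norm_num, fun _ => Or.inr (Or.inl rfl)⟩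
  have hApx : ∀ J : Fin k → Fin (d + 1),
      Apx X ∅ (fun l => ((evw (X.w l) (g ^ (d - (α J : ℕ))) : ℚ) : ℝ) * tz (n l) J) := by
    intro J
    refine (hAX κ X).2.2.1 ∅ _ _ ((hAX κ X).2.2.2.1 ∅ _ (fun v _ => Finset.notMem_empty _)) ?_
    unfold tz
    refine (hAX κ X).2.2.2.2.2.2.2.1 ∅ (Fin k) Finset.univ (fun j l => ze (n l j) ^ (J j : ℕ))
      (fun j _ => ?_)
    exact (hAX κ X).2.2.2.2.2.2.2.2 ∅ _ _ (hVTA κ X k n hArg (fun _ => 1) hCM1 ∅ j).1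
  have hind : ∀ h : (Fin k → Fin (d + 1)) → Rv κ,
      (Neg X fun l => ∑ J, ((evw (X.w l) (h J) : ℚ) : ℝ) *
        (((evw (X.w l) (g ^ (d - (α J : ℕ))) : ℚ) : ℝ) * tz (n l) J)) → h = 0 := by
    intro h hh
    have h1 := (hZ1 κ hκ X k d n hArg).1 (fun J => h J * g ^ (d - (α J : ℕ))) (by
      have e : (fun l => ∑ J, ((evw (X.w l) (h J * g ^ (d - (α J : ℕ))) : ℚ) : ℝ) * tz (n l) J) =
          fun l => ∑ J, ((evw (X.w l) (h J) : ℚ) : ℝ) *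
            (((evw (X.w l) (g ^ (d - (α J : ℕ))) : ℚ) : ℝ) * tz (n l) J) := by
        funext l
        refine Finset.sum_congr rfl fun J _ => ?_
        rw [map_mul]
        push_cast
        ring
      rw [e]
      exact hh)
    funext J
    have h2 := congrFun h1 J
    simp only [Pi.zero_apply, mul_eq_zero] at h2
    rcases h2 with h2 | h2
    · exact h2
    · exact absurd h2 (pow_ne_zero _ hg0)
  have hx' : ∀ᶠ l : ℕ in (X.𝒰 : Filter ℕ), (fun J => x l (α J, J)) ≠ 0 := by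
    filter_upwards [hx, huni] with l h1 h2 h3
    apply h1
    funext v
    obtain ⟨e, J⟩ := v
    by_contra hne
    have h4 := h2 e J hne
    have h5 := congrFun h3 J
    simp only [Pi.zero_apply] at h5
    rw [← h4] at h5
    exact hne h5
  have hkey := hLB1 κ hκ X (Fin k → Fin (d + 1))
    (fun J l => ((evw (X.w l) (g ^ (d - (α J : ℕ))) : ℚ) : ℝ) * tz (n l) J) hApx hind
    (fun l J => x l (α J, J)) hx' (fun J => hbdd (α J, J))
  apply hkey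
  have hB : Bdd X fun l => ((evw (X.w l) (g ^ d) : ℚ) : ℝ) := (hC1 κ).2.2.2.2.2.2.2.2 X (g ^ d)
  refine (hNA κ X).2.2.2.1 _ _ ?_ ((hNA κ X).2.1 _ _ hneg hB)
  filter_upwards [hval, huni] with l h1 h2
  have h3 := ZC2_sum (x l) α h2 (val (fq f ∅) (n l a)) ((evw (X.w l) g : ℚ) : ℝ) h1 (tz (n l))
  have e1 : ((evw (X.w l) (g ^ d) : ℚ) : ℝ) = ((evw (X.w l) g : ℚ) : ℝ) ^ d := by
    rw [map_pow]
    push_cast
    rfl
  rw [e1, h3]
  refine Finset.sum_congr rfl fun J _ => ?_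
  have e2 : ((evw (X.w l) (g ^ (d - (α J : ℕ))) : ℚ) : ℝ) =
      ((evw (X.w l) g : ℚ) : ℝ) ^ (d - (α J : ℕ)) := by
    rw [map_pow]
    push_cast
    rfl
  rw [e2]

end Pool.Agent.Work.MP_f1a024_nt.TZ
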