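import Pool.Agent.Work.MP_f1a024_nt.TZ.Stmts

/-!
Item ZC3 of block TZ: the case of a limit function which is not eventually constant on the primes.
-/

namespace Pool.Agent.Work.MP_f1a024_nt.TZ

open Finset MvPolynomial Filter
open Pool.Agent.Work.MP_f1a024_nt.AH (PG val D1 D2 D4)
open Pool.Agent.Work.MP_f1a024_nt.TU
open Pool.Agent.Work.MP_f1a024_nt.TV

/-- the two functions: `1` and `f` -/
def ZC3_F (f : ℕ → ℚ) : Bool → ℕ → ℚ
  | false => fun _ => 1
  | true => f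

/-- the index `I` attached to `(e, J)` -/
def ZC3_emb {k d : ℕ} (a : Fin k) (v : Fin (d + 1) × (Fin k → Fin (d + 1))) :
    Bool × Fin k → Fin (d + 1)
  | (false, j) => v.2 j
  | (true, j) => if j = a then v.1 else 0

theorem ZC3_emb_inj {k d : ℕ} (a : Fin k) : Function.Injective
    (ZC3_emb a : Fin (d + 1) × (Fin k → Fin (d + 1)) → Bool × Fin k → Fin (d + 1)) := by
  intro v w h
  have h1 : v.1 = w.1 := by
    have h2 := congrFun h (true, a)
    simpa [ZC3_emb] using h2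
  have h3 : v.2 = w.2 := by
    funext j
    exact congrFun h (false, j)
  exact Prod.ext h1 h3

theorem ZC3_CM {f : ℕ → ℚ} (hf : CM f) : ∀ i, CM (ZC3_F f i)
  | false => ⟨rfl, fun _ _ => (mul_one (1 : ℚ)).symm, fun _ => Or.inr (Or.inl rfl)⟩
  | true => hf

theorem ZC3_IP {f : ℕ → ℚ} (hf : NC f) : IP (ZC3_F f) := by
  intro e he N
  have hs : ∀ q : ℕ, ∑ i, (e i : ℚ) * ZC3_F f i q = (e true : ℚ) * f q + (e false : ℚ) := by
    intro q
    rw [Fintype.sum_bool]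
    change (e true : ℚ) * f q + (e false : ℚ) * 1 = _
    rw [mul_one]
  obtain ⟨q, q', hq, hq', hN, hN', hne⟩ := hf N
  by_cases h0 : ∑ i, (e i : ℚ) * ZC3_F f i q = 0
  · refine ⟨q', hq', hN', fun h1 => ?_⟩
    rw [hs] at h0 h1
    have h2 : (e true : ℚ) * (f q - f q') = 0 := by linear_combination h0 - h1
    rcases mul_eq_zero.mp h2 with h3 | h3
    · rw [h3, zero_mul, zero_add] at h0
      apply he
      funext b
      cases b
      · exact_mod_cast h0
      · exact_mod_cast h3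
    · exact hne (sub_eq_zero.mp h3)
  · exact ⟨q, hq, hN, h0⟩

theorem ZC3_tJ {k d : ℕ} (f : ℕ → ℚ) (n : Fin k → ℕ) (a : Fin k)
    (v : Fin (d + 1) × (Fin k → Fin (d + 1))) :
    tJ (ZC3_F f) ∅ n (ZC3_emb a v) = val (fq f ∅) (n a) ^ (v.1 : ℕ) * tz n v.2 := by
  unfold tJ tz ze
  rw [Fintype.prod_prod_type, Fintype.prod_bool]
  have h1 : ∏ j : Fin k, val (fq (ZC3_F f (true, j).1) ∅) (n (true, j).2) ^
      ((ZC3_emb a v (true, j) : Fin (d + 1)) : ℕ) = val (fq f ∅) (n a) ^ (v.1 : ℕ) := by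
    rw [Finset.prod_eq_single a]
    · change val (fq f ∅) (n a) ^ (((if a = a then v.1 else 0 : Fin (d + 1))) : ℕ) = _
      rw [if_pos rfl]
    · intro j _ hj
      change val (fq f ∅) (n j) ^ (((if j = a then v.1 else 0 : Fin (d + 1))) : ℕ) = _
      rw [if_neg hj]
      rfl
    · intro h
      exact absurd (Finset.mem_univ a) h
  exact congrArg₂ (· * ·) h1 rfl

/-- the integer vector on the indices `I` -/
def ZC3_y {k d : ℕ} (a : Fin k) (x : Fin (d + 1) × (Fin k → Fin (d + 1)) → ℤ)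
    (I : Bool × Fin k → Fin (d + 1)) : ℤ :=
  ∑ v, if ZC3_emb a v = I then x v else 0

theorem ZC3_y_emb {k d : ℕ} (a : Fin k) (x : Fin (d + 1) × (Fin k → Fin (d + 1)) → ℤ)
    (v : Fin (d + 1) × (Fin k → Fin (d + 1))) : ZC3_y a x (ZC3_emb a v) = x v := by
  unfold ZC3_y
  rw [Finset.sum_eq_single v]
  · rw [if_pos rfl]
  · intro w _ hw
    rw [if_neg fun h => hw (ZC3_emb_inj a h)]
  · intro h
    exact absurd (Finset.mem_univ v) h

theorem ZC3_y_not {k d : ℕ} (a : Fin k) (x : Fin (d + 1) × (Fin k → Fin (d + 1)) → ℤ)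
    (I : Bool × Fin k → Fin (d + 1)) (hI : ∀ v, ZC3_emb a v ≠ I) : ZC3_y a x I = 0 := by
  unfold ZC3_y
  exact Finset.sum_eq_zero fun v _ => if_neg (hI v)

theorem ZC3_sum {k d : ℕ} (a : Fin k) (x : Fin (d + 1) × (Fin k → Fin (d + 1)) → ℤ)
    (t : (Bool × Fin k → Fin (d + 1)) → ℝ) :
    ∑ I, (ZC3_y a x I : ℝ) * t I = ∑ v, (x v : ℝ) * t (ZC3_emb a v) := by
  have h1 : ∀ I : Bool × Fin k → Fin (d + 1), (ZC3_y a x I : ℝ) * t I =
      ∑ v, if ZC3_emb a v = I then (x v : ℝ) * t I else 0 := by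
    intro I
    unfold ZC3_y
    rw [Int.cast_sum, Finset.sum_mul]
    refine Finset.sum_congr rfl fun v _ => ?_
    split_ifs
    · rfl
    · rw [Int.cast_zero, zero_mul]
  rw [Finset.sum_congr rfl fun I _ => h1 I, Finset.sum_comm]
  refine Finset.sum_congr rfl fun v _ => ?_
  rw [Finset.sum_ite_eq]
  rw [if_pos (Finset.mem_univ _)]

theorem prfZC3 (hAX : AX) (hVTA : VTA) (hLB1 : LB1) (hVLB : VLB) : ZC3 := by
  intro κ hκ X k d n a f x harg hf hNC hx0 hxB hneg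
  have hCM := ZC3_CM hf
  have hIP := ZC3_IP hNC
  have hA : ∀ I : Bool × Fin k → Fin (d + 1), Apx X ∅ fun l => tJ (ZC3_F f) ∅ (n l) I := by
    intro I
    have h9 := (hAX κ X).2.2.2.2.2.2.2.2
    have h8 := (hAX κ X).2.2.2.2.2.2.2.1
    exact h8 ∅ (Bool × Fin k) Finset.univ
      (fun v l => val (fq (ZC3_F f v.1) ∅) (n l v.2) ^ (I v : ℕ)) fun v _ =>
      h9 ∅ (fun l => val (fq (ZC3_F f v.1) ∅) (n l v.2)) (I v : ℕ)
        (hVTA κ X k n harg (ZC3_F f v.1) (hCM v.1) ∅ v.2).1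
  refine hLB1 κ hκ X (Bool × Fin k → Fin (d + 1)) (fun I l => tJ (ZC3_F f) ∅ (n l) I) hA
    (fun g hg => hVLB κ X Bool k d n (ZC3_F f) harg hCM hIP g hg)
    (fun l I => ZC3_y a (x l) I) ?_ ?_ ?_
  · filter_upwards [hx0] with l hl h0
    apply hl
    funext v
    have h1 := congrFun h0 (ZC3_emb a v)
    rw [ZC3_y_emb] at h1
    exact h1
  · intro I
    by_cases hI : ∃ v, ZC3_emb a v = I
    · obtain ⟨v, rfl⟩ := hI
      obtain ⟨K, hK, hb⟩ := hxB v
      refine ⟨K, hK, ?_⟩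
      filter_upwards [hb] with l hl
      rw [ZC3_y_emb]
      exact hl
    · refine ⟨1, le_refl _, Filter.Eventually.of_forall fun l => ?_⟩
      change |((ZC3_y a (x l) I : ℤ) : ℝ)| ≤ 1 ^ X.m l
      rw [ZC3_y_not a (x l) I fun v hv => hI ⟨v, hv⟩]
      simp
  · have h1 : (fun l => ∑ I : Bool × Fin k → Fin (d + 1),
        (ZC3_y a (x l) I : ℝ) * tJ (ZC3_F f) ∅ (n l) I) =
        fun l => ∑ v, (x l v : ℝ) * (val (fq f ∅) (n l a) ^ (v.1 : ℕ) * tz (n l) v.2) := by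
      funext l
      rw [ZC3_sum a (x l) fun I => tJ (ZC3_F f) ∅ (n l) I]
      refine Finset.sum_congr rfl fun v _ => ?_
      rw [ZC3_tJ]
    change Neg X (fun l => ∑ I : Bool × Fin k → Fin (d + 1),
        (ZC3_y a (x l) I : ℝ) * tJ (ZC3_F f) ∅ (n l) I)
    rw [h1]
    exact hneg

end Pool.Agent.Work.MP_f1a024_nt.TZ
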