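import Pool.Agent.Work.MP_f1a024_nt.TZ.Stmts
import Pool.Agent.Work.MP_f1a024_nt.TV.VMA

/-!
Item ZF of block TZ: THEOREM Z for functions (port of VMA).
-/

namespace Pool.Agent.Work.MP_f1a024_nt.TZ

open Finset MvPolynomial Filter
open Pool.Agent.Work.MP_f1a024_nt.AH (PG val D1 D2 D4)
open Pool.Agent.Work.MP_f1a024_nt.TU
open Pool.Agent.Work.MP_f1a024_nt.TV

/-- the index `none ↦ e`, `some j ↦ J j` -/
def ZF_ix {k d : ℕ} (v : Fin (d + 1) × (Fin k → Fin (d + 1))) : Option (Fin k) → Fin (d + 1)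
  | none => v.1
  | some j => v.2 j

/-- the index as an equivalence -/
def ZF_eq (k d : ℕ) : (Fin (d + 1) × (Fin k → Fin (d + 1))) ≃ (Option (Fin k) → Fin (d + 1)) where
  toFun := ZF_ix
  invFun := fun I => (I none, fun j => I (some j))
  left_inv := fun _ => rfl
  right_inv := fun I => by
    funext o
    cases o with
    | none => rfl
    | some j => rfl

theorem ZF_sum {k d : ℕ} (P : MvPolynomial (Option (Fin k)) ℤ) (hP : ∀ j, P.degreeOf j ≤ d)
    (u : ℝ) (n : Fin k → ℕ) :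
    MvPolynomial.aeval (pz u n) P = ∑ v : Fin (d + 1) × (Fin k → Fin (d + 1)),
      ((P.coeff (VMA_ex (ZF_ix v)) : ℤ) : ℝ) * (u ^ (v.1 : ℕ) * tz n v.2) := by
  rw [VMA_aeval P hP (pz u n)]
  rw [← Equiv.sum_comp (ZF_eq k d)]
  refine Finset.sum_congr rfl fun v _ => ?_
  rw [Fintype.prod_option]
  rfl

theorem ZF_weight {k d : ℕ} (n : Fin k → ℕ) (a : Fin k)
    (v : Fin (d + 1) × (Fin k → Fin (d + 1))) :
    Finsupp.weight (wt n a) (VMA_ex (ZF_ix v)) =
      (v.1 : ℕ) * n a + ∑ j, (v.2 j : ℕ) * n j := by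
  have h : (VMA_ex (ZF_ix v)).sum (fun i c => c • wt n a i) =
      ∑ i, VMA_ex (ZF_ix v) i • wt n a i :=
    Finsupp.sum_fintype _ _ (fun i => zero_smul _ _)
  rw [Finsupp.weight_apply, h, Fintype.sum_option]
  rfl

theorem prfZF (hUS : US) (hZI : ZI) : ZF := by
  intro k d C B
  by_contra hcon
  push Not at hcon
  choose m hm n hinj hn a f hCM hNC P W hP hdeg hcoef hhom hz using hcon
  have hU : ((Filter.hyperfilter ℕ : Ultrafilter ℕ) : Filter ℕ) ≤ atTop :=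
    Nat.hyperfilter_le_atTop
  have hmU : ∀ N : ℕ, ∀ᶠ l : ℕ in ((Filter.hyperfilter ℕ : Ultrafilter ℕ) : Filter ℕ), N ≤ m l := by
    intro N
    exact hU ((eventually_ge_atTop N).mono fun l hl => le_trans hl (hm l))
  have hk : 0 < k := lt_of_le_of_lt (Nat.zero_le _) (a 0).isLt
  obtain ⟨κ, X, hκ, hXU, hXm, A, c, hRep⟩ := hUS (Filter.hyperfilter ℕ) m k C n hk hmU
    (Filter.Eventually.of_forall fun l j => hn l j)
  have harg : Arg X n := by
    refine ⟨⟨A, c, hRep⟩, Filter.Eventually.of_forall fun l => ⟨hinj l, fun j => ?_⟩⟩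
    rw [hXm]
    exact (hn l j).1
  -- the constant index
  obtain ⟨a₀, ha₀⟩ : ∃ a₀ : Fin k, ∀ᶠ l : ℕ in (X.𝒰 : Filter ℕ), a l = a₀ := by
    obtain ⟨a₀, h⟩ := Ultrafilter.eq_pure_of_finite (Ultrafilter.map a X.𝒰)
    refine ⟨a₀, ?_⟩
    have h1 : ({a₀} : Set (Fin k)) ∈ Ultrafilter.map a X.𝒰 := by
      rw [h]
      exact Ultrafilter.mem_pure.2 rfl
    exact Ultrafilter.mem_map.1 h1
  have hx0 : ∀ l, (fun v : Fin (d + 1) × (Fin k → Fin (d + 1)) =>
      (P l).coeff (VMA_ex (ZF_ix v))) ≠ 0 := by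
    intro l h0
    obtain ⟨s, hs⟩ := MvPolynomial.ne_zero_iff.mp (hP l)
    have hs1 : s ∈ (P l).support := MvPolynomial.mem_support_iff.mpr hs
    have hsd : ∀ j, s j ≤ d := fun j => (MvPolynomial.degreeOf_le_iff.mp (hdeg l j)) s hs1
    obtain ⟨I, hI⟩ := VMA_ex_surj s hsd
    have h1 := congrFun h0 ((ZF_eq k d).symm I)
    have h2 : ZF_ix ((ZF_eq k d).symm I) = I := (ZF_eq k d).right_inv I
    simp only [h2, hI, Pi.zero_apply] at h1
    exact hs h1
  have hxB : ∀ v : Fin (d + 1) × (Fin k → Fin (d + 1)),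
      Bdd X fun l => (((P l).coeff (VMA_ex (ZF_ix v)) : ℤ) : ℝ) := by
    intro v
    refine ⟨max |B| 1, le_max_right _ _, Filter.Eventually.of_forall fun l => ?_⟩
    rw [hXm]
    calc |(((P l).coeff (VMA_ex (ZF_ix v)) : ℤ) : ℝ)| ≤ B ^ m l := hcoef l _
      _ ≤ |B ^ m l| := le_abs_self _
      _ = |B| ^ m l := abs_pow _ _
      _ ≤ (max |B| 1) ^ m l := pow_le_pow_left₀ (abs_nonneg _) (le_max_left _ _) _
  have hmain := hZI κ hκ X k d n a₀ f
    (fun l v => (P l).coeff (VMA_ex (ZF_ix v))) harg hCM hNC (Filter.Eventually.of_forall hx0) hxB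
    (by
      filter_upwards [ha₀] with l hl
      refine ⟨W l, fun v hv => ?_⟩
      rw [← hl, ← ZF_weight (n l) (a l) v]
      exact hhom l hv)
  obtain ⟨l, h1, h2⟩ := (hmain.and ha₀).exists
  apply h1
  rw [← h2, ← ZF_sum (P l) (hdeg l)]
  exact hz l

end Pool.Agent.Work.MP_f1a024_nt.TZ
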