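import Pool.Agent.Work.MP_f1a024_nt.TZ.Stmts

/-! Item ZG of block TZ: THEOREM Z for characters -/

namespace Pool.Agent.Work.MP_f1a024_nt.TZ

open Finset MvPolynomial Filter
open Pool.Agent.Work.MP_f1a024_nt.AH (PG val D1 D2 D4)
open Pool.Agent.Work.MP_f1a024_nt.TU
open Pool.Agent.Work.MP_f1a024_nt.TV

/-- coefficients after multiplication by a power of a variable -/
lemma ZG_coeff {σ : Type} [DecidableEq σ] (A : MvPolynomial σ ℤ) (v : σ) (T : ℝ)
    (h : ∀ s, |((A.coeff s : ℤ) : ℝ)| ≤ T) (s : σ →₀ ℕ) (e : ℕ) :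
    |(((A * X v ^ e).coeff s : ℤ) : ℝ)| ≤ T := by
  have hT : 0 ≤ T := le_trans (abs_nonneg _) (h 0)
  rw [X_pow_eq_monomial, coeff_mul_monomial']
  split_ifs with hs
  · rw [mul_one]
    exact h _
  · simpa using hT

/-- the combination is weighted homogeneous -/
lemma ZG_hom {k : ℕ} (n : Fin k → ℕ) (a b : Fin k) (hab : n b = 2 * n a)
    (A A' : MvPolynomial (Option (Fin k)) ℤ) (W : ℕ)
    (hA : IsWeightedHomogeneous (wt n a) A W) (hA' : IsWeightedHomogeneous (wt n a) A' W) :
    IsWeightedHomogeneous (wt n a) (A * X (some a) ^ 2 - A' * X (some b)) (W + 2 * n a) := by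
  have e1 : IsWeightedHomogeneous (wt n a) (X (some a) : MvPolynomial (Option (Fin k)) ℤ)
      (n a) := isWeightedHomogeneous_X ℤ (wt n a) (some a)
  have e2 : IsWeightedHomogeneous (wt n a) (X (some b) : MvPolynomial (Option (Fin k)) ℤ)
      (n b) := isWeightedHomogeneous_X ℤ (wt n a) (some b)
  have e3 : IsWeightedHomogeneous (wt n a) (A * X (some a) ^ 2) (W + 2 * n a) := by
    have h := hA.mul (e1.mul e1)
    rw [← pow_two, ← two_mul] at h
    exact h
  have e4 : IsWeightedHomogeneous (wt n a) (A' * X (some b)) (W + 2 * n a) := by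
    have h := hA'.mul e2
    rw [hab] at h
    exact h
  rw [← mem_weightedHomogeneousSubmodule] at e3 e4 ⊢
  exact Submodule.sub_mem _ e3 e4

/-- item ZG -/
theorem prfZG (hVCH : VCH) (hZF : ZF) (hZH : ZH) : ZG := by
  intro k d C B
  obtain ⟨hC1, hC2, hC3⟩ := hVCH
  obtain ⟨M₀, hM⟩ := hZF k (d + 2) C (2 * max |B| 1)
  refine ⟨max M₀ 2, ?_⟩
  intro m hm n hn hnm a D _ χ h2 h1
  have hm0 : M₀ ≤ m := le_trans (le_max_left _ _) hm
  have hm2 : 2 ≤ m := le_trans (le_max_right _ _) hm
  have hn2 : ∀ j, 2 ≤ n j := fun j => le_trans hm2 (hnm j).1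
  have hB1 : (1 : ℝ) ≤ max |B| 1 := le_max_right _ _
  have hBm : B ^ m ≤ (max |B| 1) ^ m := by
    calc B ^ m ≤ |B ^ m| := le_abs_self _
      _ = |B| ^ m := abs_pow _ _
      _ ≤ (max |B| 1) ^ m := pow_le_pow_left₀ (abs_nonneg _) (le_max_left _ _) _
  have hB0 : (0 : ℝ) ≤ (max |B| 1) ^ m := by positivity
  have h2m : (2 : ℝ) ≤ 2 ^ m := by
    calc (2 : ℝ) = 2 ^ 1 := by norm_num
      _ ≤ 2 ^ m := pow_le_pow_right₀ (by norm_num) (by omega)
  have hB2 : 2 * (max |B| 1) ^ m ≤ (2 * max |B| 1) ^ m := by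
    rw [mul_pow]
    exact mul_le_mul_of_nonneg_right h2m hB0
  set u : ℝ := val (fq (chq χ) ∅) (n a) with hu
  have hpt : ∀ v : Option (Fin k), pf χ n a v = Complex.ofRealHom.toIntAlgHom (pz u n v) := by
    intro v
    cases v with
    | none => exact ((hC1 D χ h2).2.2 (n a) (hn2 a)).symm
    | some j => exact (hC3 (n j) (hn2 j)).symm
  have hae : ∀ P : MvPolynomial (Option (Fin k)) ℤ,
      aeval (pf χ n a) P = ((aeval (pz u n) P : ℝ) : ℂ) := by
    intro P
    have h := MvPolynomial.comp_aeval_apply (pz u n) (Complex.ofRealHom.toIntAlgHom) P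
    have h' : pf χ n a = fun v => Complex.ofRealHom.toIntAlgHom (pz u n v) := by
      funext v
      exact hpt v
    rw [h', ← h]
    rfl
  have hmain : ∀ (P : MvPolynomial (Option (Fin k)) ℤ) (W : ℕ), P ≠ 0 →
      (∀ v, P.degreeOf v ≤ d + 2) → (∀ s, |((P.coeff s : ℤ) : ℝ)| ≤ 2 * (max |B| 1) ^ m) →
      IsWeightedHomogeneous (wt n a) P W → aeval (pf χ n a) P ≠ 0 := by
    intro P W hP hd hc hw h0
    rw [hae P, Complex.ofReal_eq_zero] at h0
    exact hM m hm0 n hn hnm a (chq χ) (hC1 D χ h2).1 (hZH D χ h1) P W hP hd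
      (fun s => (hc s).trans hB2) hw h0
  refine ⟨?_, ?_⟩
  · intro P W hP hd hc hw
    refine hmain P W hP (fun v => (hd v).trans (by omega)) ?_ hw
    intro s
    have := hc s
    linarith
  · intro b A A' W hab hdA hdA' hcA hcA' hwA hwA' heq
    by_contra hne
    have hP : A * X (some a) ^ 2 - A' * X (some b) ≠ 0 := sub_ne_zero.mpr hne
    have hdP : ∀ v, (A * X (some a) ^ 2 - A' * X (some b)).degreeOf v ≤ d + 2 := by
      intro v
      have hx : ∀ u : Option (Fin k),
          degreeOf v (X u : MvPolynomial (Option (Fin k)) ℤ) ≤ 1 := by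
        intro u
        rw [degreeOf_X]
        split_ifs <;> omega
      refine (degreeOf_sub_le _ _ _).trans (max_le ?_ ?_)
      · refine (degreeOf_mul_le _ _ _).trans ?_
        have hq := degreeOf_pow_le v (X (some a) : MvPolynomial (Option (Fin k)) ℤ) 2
        have := hx (some a)
        have := hdA v
        omega
      · refine (degreeOf_mul_le _ _ _).trans ?_
        have := hx (some b)
        have := hdA' v
        omega
    have hcP : ∀ s, |(((A * X (some a) ^ 2 - A' * X (some b)).coeff s : ℤ) : ℝ)| ≤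
        2 * (max |B| 1) ^ m := by
      intro s
      rw [coeff_sub, Int.cast_sub]
      have e1 := ZG_coeff A (some a) (B ^ m) hcA s 2
      have e2 := ZG_coeff A' (some b) (B ^ m) hcA' s 1
      rw [pow_one] at e2
      have e3 := abs_sub (((A * X (some a) ^ 2).coeff s : ℤ) : ℝ)
        (((A' * X (some b)).coeff s : ℤ) : ℝ)
      linarith
    have hlow := hmain _ (W + 2 * n a) hP hdP hcP (ZG_hom n a b hab A A' W hwA hwA')
    apply hlow
    have hz0 : riemannZeta (n a : ℂ) ≠ 0 := by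
      apply riemannZeta_ne_zero_of_one_lt_re
      have := hn2 a
      simp only [Complex.natCast_re]
      exact_mod_cast (by omega : 1 < n a)
    have hzb : riemannZeta (n b : ℂ) = riemannZeta (2 * (n a : ℂ)) := by
      rw [hab]
      push_cast
      rfl
    rw [map_sub, map_mul, map_mul, map_pow, aeval_X, aeval_X, heq]
    change _ * riemannZeta (n a : ℂ) ^ 2 - _ * riemannZeta (n b : ℂ) = _
    rw [hzb]
    field_simp
    ring

end Pool.Agent.Work.MP_f1a024_nt.TZ
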