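import Pool.Agent.Work.MP_f1a024_nt.TZ.Stmts

/-!
# ZH: nontrivial real characters are not eventually constant on the primes
-/

namespace Pool.Agent.Work.MP_f1a024_nt.TZ

open Finset MvPolynomial Filter
open Pool.Agent.Work.MP_f1a024_nt.TV

theorem prfZH : ZH := by
  intro D _ χ hχ N
  obtain ⟨a, ha⟩ := MulChar.ne_one_iff.mp hχ
  obtain ⟨q, hq, hqp, hq1⟩ := Nat.forall_exists_prime_gt_and_eq_mod
    (q := D) (a := (1 : ZMod D)) isUnit_one N
  obtain ⟨q', hq', hqp', hqa⟩ := Nat.forall_exists_prime_gt_and_eq_mod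
    (q := D) (a := (a : ZMod D)) a.isUnit N
  refine ⟨q, q', hqp, hqp', hq, hq', ?_⟩
  have h1 : chq χ q = 1 := by
    unfold chq
    rw [hq1, map_one, if_neg one_ne_zero, if_pos rfl]
  have h2 : chq χ q' = -1 := by
    have h0 : χ (a : ZMod D) ≠ 0 := by
      intro h
      have h3 : χ ((a : ZMod D) * ((a⁻¹ : (ZMod D)ˣ) : ZMod D)) = 0 := by
        rw [map_mul, h, zero_mul]
      rw [Units.mul_inv, map_one] at h3
      exact one_ne_zero h3
    unfold chq
    rw [hqa, if_neg h0, if_neg ha]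
  rw [h1, h2]
  norm_num

end Pool.Agent.Work.MP_f1a024_nt.TZ
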