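import Pool.Agent.Work.MP_f1a024_nt.TZ.Stmts

/-! # Item ZI of block TZ: the three cases together -/

set_option autoImplicit false

namespace Pool.Agent.Work.MP_f1a024_nt.TZ

open Finset MvPolynomial Filter
open Pool.Agent.Work.MP_f1a024_nt.AH (PG val D1 D2 D4)
open Pool.Agent.Work.MP_f1a024_nt.TU
open Pool.Agent.Work.MP_f1a024_nt.TV

/-- negligible sequences are bounded -/
theorem ZI_bddNeg {κ : ℕ} (X : Cx κ) {y : ℕ → ℝ} (h : Neg X y) : Bdd X y :=
  ⟨1, le_rfl, h 1 one_pos⟩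

/-- powers of bounded sequences -/
theorem ZI_bddPow (hNA : NA) {κ : ℕ} (X : Cx κ) {y : ℕ → ℝ} (h : Bdd X y) (e : ℕ) :
    Bdd X fun l => y l ^ e := by
  obtain ⟨-, -, -, -, -, -, n7, n8, -, -, -⟩ := hNA κ X
  induction e with
  | zero =>
    have := n8 1
    simpa using this
  | succ e ih =>
    have := n7 _ _ ih h
    simpa only [pow_succ] using this

/-- differences of powers -/
theorem ZI_negPow (hNA : NA) {κ : ℕ} (X : Cx κ) {u v : ℕ → ℝ} (hu : Bdd X u) (hv : Bdd X v)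
    (huv : Neg X fun l => u l - v l) (e : ℕ) : Neg X fun l => u l ^ e - v l ^ e := by
  obtain ⟨n1, n2, -, n4, -, -, -, -, -, -, -⟩ := hNA κ X
  induction e with
  | zero =>
    intro θ hθ
    refine Filter.Eventually.of_forall fun l => ?_
    simp only [pow_zero, sub_self, abs_zero]
    positivity
  | succ e ih =>
    have h1 := n1 _ _ (n2 _ _ ih hu) (n2 _ _ huv (ZI_bddPow hNA X hv e))
    refine n4 _ _ (Filter.Eventually.of_forall fun l => ?_) h1
    ring

/-- the constant function -/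
theorem ZI_cmOne : CM (fun _ => 1) :=
  ⟨rfl, fun _ _ => (mul_one 1).symm, fun _ => Or.inr (Or.inl rfl)⟩

/-- ZI -/
theorem prfZI (hNA : NA) (hAX : AX) (hVTA : VTA) (hZM : ZM) (hZN : ZN) (hZC1 : ZC1)
    (hZC2 : ZC2) (hZC3 : ZC3) : ZI := by
  intro κ hκ X k d n a F x hArg hF hNC hx hxb hom
  obtain ⟨f, hf, hlim⟩ := hZM X.𝒰 F hF
  obtain ⟨n1, n2, n3, n4, n5, n6, n7, n8, n9, n10, n11⟩ := hNA κ X
  obtain ⟨a1, a2, a3, a4, a5, a6, a7, a8, a9⟩ := hAX κ X
  -- the two sequences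
  have hv : Bdd X fun l => val (fq f ∅) (n l a) :=
    a1 ∅ _ (hVTA κ X k n hArg f hf ∅ a).1
  have huv : Neg X fun l => val (fq (F l) ∅) (n l a) - val (fq f ∅) (n l a) :=
    hZN κ X k n hArg F f hF hf hlim a
  have hu : Bdd X fun l => val (fq (F l) ∅) (n l a) := by
    have h1 := n6 _ _ (ZI_bddNeg X huv) hv
    have h2 : (fun l => val (fq (F l) ∅) (n l a) - val (fq f ∅) (n l a) +
        val (fq f ∅) (n l a)) = fun l => val (fq (F l) ∅) (n l a) := by
      funext l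
      ring
    rw [h2] at h1
    exact h1
  have htz : ∀ J : Fin k → Fin (d + 1), Bdd X fun l => tz (n l) J := by
    intro J
    refine a1 ∅ _ ?_
    have h1 := a8 ∅ (Fin k) Finset.univ (fun j l => ze (n l j) ^ (J j : ℕ)) (fun j _ =>
      a9 ∅ _ _ (hVTA κ X k n hArg (fun _ => 1) ZI_cmOne ∅ j).1)
    exact h1
  -- the case where the sum at the limit is not negligible
  have key : (¬ Neg X fun l => ∑ v, (x l v : ℝ) *
      (val (fq f ∅) (n l a) ^ (v.1 : ℕ) * tz (n l) v.2)) →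
      ∀ᶠ l : ℕ in (X.𝒰 : Filter ℕ),
        ∑ v, (x l v : ℝ) * (val (fq (F l) ∅) (n l a) ^ (v.1 : ℕ) * tz (n l) v.2) ≠ 0 := by
    intro hnn
    by_contra hcon
    apply hnn
    have h0 : ∀ᶠ l : ℕ in (X.𝒰 : Filter ℕ),
        ∑ v, (x l v : ℝ) * (val (fq (F l) ∅) (n l a) ^ (v.1 : ℕ) * tz (n l) v.2) = 0 := by
      have h1 := Ultrafilter.eventually_not.2 hcon
      filter_upwards [h1] with l hl
      exact not_not.1 hl
    have hdiff : Neg X fun l => ∑ v : Fin (d + 1) × (Fin k → Fin (d + 1)),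
        (val (fq (F l) ∅) (n l a) ^ (v.1 : ℕ) - val (fq f ∅) (n l a) ^ (v.1 : ℕ)) *
          (-((x l v : ℝ)) * tz (n l) v.2) := by
      refine n5 _ Finset.univ (fun (v : Fin (d + 1) × (Fin k → Fin (d + 1))) l =>
        (val (fq (F l) ∅) (n l a) ^ (v.1 : ℕ) - val (fq f ∅) (n l a) ^ (v.1 : ℕ)) *
          (-((x l v : ℝ)) * tz (n l) v.2)) (fun v _ => ?_)
      refine n2 _ _ (ZI_negPow hNA X hu hv huv (v.1 : ℕ)) ?_
      refine n7 _ _ ?_ (htz v.2)
      have h2 := n7 _ _ (n8 (-1)) (hxb v)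
      simpa using h2
    refine n4 _ _ ?_ hdiff
    filter_upwards [h0] with l hl
    have h3 : ∑ v : Fin (d + 1) × (Fin k → Fin (d + 1)),
        (val (fq (F l) ∅) (n l a) ^ (v.1 : ℕ) - val (fq f ∅) (n l a) ^ (v.1 : ℕ)) *
          (-((x l v : ℝ)) * tz (n l) v.2) =
        (∑ v, (x l v : ℝ) * (val (fq f ∅) (n l a) ^ (v.1 : ℕ) * tz (n l) v.2)) -
        ∑ v, (x l v : ℝ) * (val (fq (F l) ∅) (n l a) ^ (v.1 : ℕ) * tz (n l) v.2) := by
      rw [← Finset.sum_sub_distrib]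
      refine Finset.sum_congr rfl fun v _ => ?_
      ring
    rw [h3, hl, sub_zero]
  by_cases hc : NC f
  · exact key (hZC3 κ hκ X k d n a f x hArg hf hc hx hxb)
  · unfold NC at hc
    push Not at hc
    obtain ⟨N, hN⟩ := hc
    obtain ⟨q₀, hq₀N, hq₀⟩ := Nat.exists_infinite_primes (N + 1)
    have hconst : ∀ q : ℕ, q.Prime → N < q → f q = f q₀ := fun q hq hqN =>
      hN q q₀ hq hq₀ hqN (by omega)
    rcases hf.2.2 q₀ with h0 | h1 | h1
    · refine key (hZC2 κ hκ X k d n a f x N hArg hf hx hxb hom ?_)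
      intro q hq hqN
      rw [hconst q hq hqN, h0]
    · exact hZC1 κ hκ X k d n a F f x 1 N hArg hF hNC hf hlim hx hxb (Or.inl rfl)
        (fun q hq hqN => by rw [hconst q hq hqN, h1])
    · exact hZC1 κ hκ X k d n a F f x (-1) N hArg hF hNC hf hlim hx hxb (Or.inr rfl)
        (fun q hq hqN => by rw [hconst q hq hqN, h1])

end Pool.Agent.Work.MP_f1a024_nt.TZ
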