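import Pool.Agent.Work.MP_f1a024_nt.TZ.Stmts
import Pool.Agent.Work.MP_f1a024_nt.TU.TTA

/-!
# Block TZ, item ZL: values of `L` are values of formal series
-/

set_option autoImplicit false

namespace Pool.Agent.Work.MP_f1a024_nt.TZ

open Finset MvPolynomial Filter
open Pool.Agent.Work.MP_f1a024_nt.AH (PG val D1 D2 D4)
open Pool.Agent.Work.MP_f1a024_nt.TU
open Pool.Agent.Work.MP_f1a024_nt.TV

/-- the exponents of the integers `s + 1` -/
noncomputable def ZL_phi {κ : ℕ} (a : Fin κ → ℕ) (s : ℕ) : Ev κ := TTA_b a (s + 1)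

theorem ZL_inj {κ : ℕ} (a : Fin κ → ℕ) (ha : ∃ i, a i ≠ 0) : Function.Injective (ZL_phi a) := by
  obtain ⟨i, hi⟩ := ha
  intro s t hst
  have h1 : ∀ p : ℕ, (s + 1).factorization p = (t + 1).factorization p := by
    intro p
    by_cases hp : p.Prime
    · have h2 : (ZL_phi a s) ((⟨p, hp⟩ : Nat.Primes), i) =
          (ZL_phi a t) ((⟨p, hp⟩ : Nat.Primes), i) := by rw [hst]
      change a i * (s + 1).factorization p = a i * (t + 1).factorization p at h2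
      exact Nat.eq_of_mul_eq_mul_left (Nat.pos_of_ne_zero hi) h2
    · rw [Nat.factorization_eq_zero_of_not_prime _ hp,
        Nat.factorization_eq_zero_of_not_prime _ hp]
  have h2 := Nat.eq_of_factorization_eq (Nat.succ_ne_zero s) (Nat.succ_ne_zero t) h1
  omega

/-- the coefficients -/
noncomputable def ZL_h {κ : ℕ} (f : ℕ → ℚ) (a : Fin κ → ℕ) (c : ℤ) : Ev κ → ℚ :=
  Function.extend (ZL_phi a) (fun s => f (s + 1) * ((s + 1 : ℕ) : ℚ) ^ (-c)) 0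

theorem ZL_h_off {κ : ℕ} (f : ℕ → ℚ) (a : Fin κ → ℕ) (c : ℤ) (b : Ev κ)
    (hb : b ∉ Set.range (ZL_phi a)) : ZL_h f a c b = 0 := by
  unfold ZL_h
  rw [Function.extend_apply' _ _ _ hb]
  rfl

theorem ZL_term {κ : ℕ} (f : ℕ → ℚ) (a : Fin κ → ℕ) (ha : ∃ i, a i ≠ 0) (c : ℤ)
    (w : Fin κ → ℕ) {n : ℕ} (hn : (n : ℤ) = ∑ i, (a i : ℤ) * (w i : ℤ) + c) (s : ℕ) :
    ((ZL_h f a c (ZL_phi a s) : ℚ) : ℝ) * ((mo w (ZL_phi a s) : ℚ) : ℝ) =
      ((f (s + 1) : ℚ) : ℝ) / ((s : ℝ) + 1) ^ n := by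
  have h1 : ZL_h f a c (ZL_phi a s) * mo w (ZL_phi a s) = f (s + 1) / ((s + 1 : ℕ) : ℚ) ^ n := by
    unfold ZL_h
    rw [(ZL_inj a ha).extend_apply]
    exact TTA_term a w c hn (Nat.succ_pos s) (f (s + 1))
  rw [← Rat.cast_mul, h1]
  push_cast
  rfl

theorem ZL_term_abs {κ : ℕ} (hC1 : C1) (f : ℕ → ℚ) (a : Fin κ → ℕ) (ha : ∃ i, a i ≠ 0) (c : ℤ)
    (w : Fin κ → ℕ) {n : ℕ} (hn : (n : ℤ) = ∑ i, (a i : ℤ) * (w i : ℤ) + c) (s : ℕ) :
    |((ZL_h f a c (ZL_phi a s) : ℚ) : ℝ)| * ((mo w (ZL_phi a s) : ℚ) : ℝ) =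
      |((f (s + 1) : ℚ) : ℝ)| / ((s : ℝ) + 1) ^ n := by
  have h0 : (0 : ℝ) < ((mo w (ZL_phi a s) : ℚ) : ℝ) := by
    exact_mod_cast ((hC1 κ).2.2.1 w (ZL_phi a s)).1
  have h1 := ZL_term f a ha c w hn s
  have h2 : (0 : ℝ) < ((s : ℝ) + 1) ^ n := by positivity
  calc |((ZL_h f a c (ZL_phi a s) : ℚ) : ℝ)| * ((mo w (ZL_phi a s) : ℚ) : ℝ)
      = |((ZL_h f a c (ZL_phi a s) : ℚ) : ℝ) * ((mo w (ZL_phi a s) : ℚ) : ℝ)| := by
        rw [abs_mul, abs_of_pos h0]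
    _ = _ := by rw [h1, abs_div, abs_of_pos h2]

theorem ZL_abs_le {f : ℕ → ℚ} (hf : CM f) (s : ℕ) : |((f s : ℚ) : ℝ)| ≤ 1 := by
  rcases hf.2.2 s with h | h | h
  · rw [h, Rat.cast_zero, abs_zero]
    exact zero_le_one
  · rw [h, Rat.cast_one, abs_one]
  · rw [h, Rat.cast_neg, Rat.cast_one, abs_neg, abs_one]

theorem ZL_two : Summable fun s : ℕ => 1 / ((s : ℝ) + 1) ^ 2 := by
  have h := (summable_nat_add_iff (f := fun s : ℕ => 1 / (s : ℝ) ^ 2) 1).2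
    (Real.summable_one_div_nat_pow.2 one_lt_two)
  refine h.congr fun s => ?_
  push_cast
  rfl

theorem ZL_sum {f : ℕ → ℚ} (hf : CM f) {n : ℕ} (hn : 2 ≤ n) :
    Summable fun s : ℕ => |((f (s + 1) : ℚ) : ℝ)| / ((s : ℝ) + 1) ^ n := by
  refine Summable.of_nonneg_of_le (fun s => by positivity) (fun s => ?_) ZL_two
  have h1 : (1 : ℝ) ≤ (s : ℝ) + 1 := by
    have : (0 : ℝ) ≤ (s : ℝ) := Nat.cast_nonneg s
    linarith
  have h2 : ((s : ℝ) + 1) ^ 2 ≤ ((s : ℝ) + 1) ^ n := pow_le_pow_right₀ h1 hn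
  exact div_le_div₀ zero_le_one (ZL_abs_le hf _) (by positivity) h2

/-- the summability and the value -/
theorem ZL_value {κ : ℕ} (hC1 : C1) {f : ℕ → ℚ} (hf : CM f) (a : Fin κ → ℕ)
    (ha : ∃ i, a i ≠ 0) (c : ℤ) (w : Fin κ → ℕ) {n : ℕ}
    (hn : (n : ℤ) = ∑ i, (a i : ℤ) * (w i : ℤ) + c) (hn2 : 2 ≤ n) :
    (Summable fun b => |((ZL_h f a c b : ℚ) : ℝ)| * ((mo w b : ℚ) : ℝ)) ∧
      val (fq f ∅) n = ∑' b, ((ZL_h f a c b : ℚ) : ℝ) * ((mo w b : ℚ) : ℝ) := by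
  constructor
  · refine ((ZL_inj a ha).summable_iff ?_).1 ?_
    · intro b hb
      rw [ZL_h_off f a c b hb, Rat.cast_zero, abs_zero, zero_mul]
    · refine (ZL_sum hf hn2).congr fun s => ?_
      exact (ZL_term_abs hC1 f a ha c w hn s).symm
  · have h1 : ∑' s, ((ZL_h f a c (ZL_phi a s) : ℚ) : ℝ) * ((mo w (ZL_phi a s) : ℚ) : ℝ) =
        ∑' b, ((ZL_h f a c b : ℚ) : ℝ) * ((mo w b : ℚ) : ℝ) := by
      refine (ZL_inj a ha).tsum_eq (f := fun b => ((ZL_h f a c b : ℚ) : ℝ) *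
        ((mo w b : ℚ) : ℝ)) ?_
      intro b hb
      by_contra hcon
      rw [Function.mem_support] at hb
      apply hb
      rw [ZL_h_off f a c b hcon, Rat.cast_zero, zero_mul]
    rw [← h1]
    have h2 : ∑' s : ℕ, ((fq f ∅ (s + 1) : ℚ) : ℝ) / (((s + 1 : ℕ) : ℝ)) ^ n =
        val (fq f ∅) n := by
      unfold AH.val
      refine (add_left_injective 1).tsum_eq
        (f := fun s : ℕ => ((fq f ∅ s : ℚ) : ℝ) / ((s : ℕ) : ℝ) ^ n) ?_
      intro s hs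
      rw [Function.mem_support] at hs
      rcases Nat.eq_zero_or_pos s with h | h
      · exfalso
        apply hs
        rw [h, ArithmeticFunction.map_zero, Rat.cast_zero, zero_div]
      · exact ⟨s - 1, by show s - 1 + 1 = s; omega⟩
    rw [← h2]
    refine tsum_congr fun s => ?_
    rw [ZL_term f a ha c w hn s]
    have h3 : fq f ∅ (s + 1) = f (s + 1) := by
      show (if s + 1 = 0 then 0 else if ∀ q ∈ (∅ : Finset Nat.Primes), ¬ (q : ℕ) ∣ s + 1 then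
        f (s + 1) else 0) = f (s + 1)
      rw [if_neg (Nat.succ_ne_zero s), if_pos]
      intro q hq
      exact absurd hq (notMem_empty q)
    rw [h3]
    push_cast
    rfl

/-- the tails -/
theorem ZL_tail {κ : ℕ} (hC1 : C1) {f : ℕ → ℚ} (hf : CM f) (a : Fin κ → ℕ)
    (ha : ∃ i, a i ≠ 0) (c : ℤ) (w : Fin κ → ℕ) {n : ℕ}
    (hn : (n : ℤ) = ∑ i, (a i : ℤ) * (w i : ℤ) + c) (hn2 : 2 ≤ n) (N : ℕ) (hN : 1 ≤ N) :
    (∑' b : {b : Ev κ // b ∉ (range N).image (ZL_phi a)},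
        |((ZL_h f a c b : ℚ) : ℝ)| * ((mo w b : ℚ) : ℝ)) ≤
      (N : ℝ) ^ 2 * (1 / (N : ℝ)) ^ n * ∑' s : ℕ, 1 / ((s : ℝ) + 1) ^ 2 := by
  set F : Ev κ → ℝ := fun b => |((ZL_h f a c b : ℚ) : ℝ)| * ((mo w b : ℚ) : ℝ) with hF
  have hs := (ZL_value hC1 hf a ha c w hn hn2).1
  have h1 := hs.sum_add_tsum_subtype_compl ((range N).image (ZL_phi a))
  have h2 : ∑ b ∈ (range N).image (ZL_phi a), F b = ∑ s ∈ range N, F (ZL_phi a s) :=
    sum_image fun x _ y _ h => ZL_inj a ha h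
  have h3 : ∑' s, F (ZL_phi a s) = ∑' b, F b := by
    refine (ZL_inj a ha).tsum_eq ?_
    intro b hb
    by_contra hcon
    rw [Function.mem_support] at hb
    apply hb
    rw [hF]
    show |((ZL_h f a c b : ℚ) : ℝ)| * ((mo w b : ℚ) : ℝ) = 0
    rw [ZL_h_off f a c b hcon, Rat.cast_zero, abs_zero, zero_mul]
  have hterm : ∀ s, F (ZL_phi a s) = |((f (s + 1) : ℚ) : ℝ)| / ((s : ℝ) + 1) ^ n :=
    fun s => ZL_term_abs hC1 f a ha c w hn s
  have hs' : Summable fun s => F (ZL_phi a s) := by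
    refine (ZL_sum hf hn2).congr fun s => ?_
    rw [hterm]
  have h4 := hs'.sum_add_tsum_nat_add N
  have h5 : ∑' b : {b : Ev κ // b ∉ (range N).image (ZL_phi a)}, F b =
      ∑' s, F (ZL_phi a (s + N)) := by
    have h1' : ∑ b ∈ (range N).image (ZL_phi a), F b +
        ∑' b : {b : Ev κ // b ∉ (range N).image (ZL_phi a)}, F b = ∑' b, F b := h1
    linarith
  show ∑' b : {b : Ev κ // b ∉ (range N).image (ZL_phi a)}, F b ≤ _
  rw [h5, ← tsum_mul_left]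
  have hN0 : (0 : ℝ) < (N : ℝ) := by exact_mod_cast hN
  refine Summable.tsum_le_tsum (fun s => ?_) ((summable_nat_add_iff N).2 hs')
    (ZL_two.mul_left _)
  rw [hterm]
  obtain ⟨r, rfl⟩ : ∃ r, n = r + 2 := ⟨n - 2, by omega⟩
  have e1 : (N : ℝ) ^ 2 * (1 / (N : ℝ)) ^ (r + 2) = 1 / (N : ℝ) ^ r := by
    rw [div_pow, one_pow, pow_add]
    field_simp
  rw [e1]
  have hs0 : (0 : ℝ) ≤ (s : ℝ) := Nat.cast_nonneg s
  push_cast
  have e2 : (N : ℝ) ^ r * ((s : ℝ) + 1) ^ 2 ≤ ((s : ℝ) + N + 1) ^ (r + 2) := by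
    rw [pow_add]
    refine mul_le_mul (pow_le_pow_left₀ hN0.le (by linarith) r)
      (pow_le_pow_left₀ (by linarith) (by linarith) 2) (by positivity) (by positivity)
  calc |((f (s + N + 1) : ℚ) : ℝ)| / ((s : ℝ) + N + 1) ^ (r + 2)
      ≤ 1 / ((N : ℝ) ^ r * ((s : ℝ) + 1) ^ 2) :=
        div_le_div₀ zero_le_one (ZL_abs_le hf _) (by positivity) e2
    _ = 1 / (N : ℝ) ^ r * (1 / ((s : ℝ) + 1) ^ 2) := by
        rw [one_div_mul_one_div]

theorem prfZL (hC1 : C1) : ZL := by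
  intro κ X k n hArg f hf j
  obtain ⟨⟨A, c, hRep⟩, hinj⟩ := hArg
  have hA : ∃ i, A j i ≠ 0 := by
    by_contra hcon
    push Not at hcon
    obtain ⟨l, h1, h2, h3⟩ := (hRep.and (hinj.and (X.hm ((c j).toNat + 1)))).exists
    have h4 := h1 j
    rw [sum_eq_zero (fun i _ => by rw [hcon i, Nat.cast_zero, zero_mul]), zero_add] at h4
    have h5 := h2.2 j
    omega
  have hbig : ∀ C : ℝ, ∀ᶠ l : ℕ in (X.𝒰 : Filter ℕ), C ≤ 2 ^ X.m l := by
    intro C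
    obtain ⟨N₀, hN₀⟩ := pow_unbounded_of_one_lt C (one_lt_two)
    filter_upwards [X.hm N₀] with l hl
    exact hN₀.le.trans (pow_le_pow_right₀ one_le_two hl)
  refine ⟨ZL_h f (A j) (c j), ?_, ?_⟩
  · filter_upwards [hRep, hinj, X.hm 2] with l h1 h2 h3
    exact ZL_value hC1 hf (A j) hA (c j) (X.w l) (h1 j) (h3.trans (h2.2 j))
  · intro θ hθ
    obtain ⟨N₁, hN₁⟩ := exists_nat_gt (2 / θ)
    set N := N₁ + 1 with hN
    have hNpos : (0 : ℝ) < (N : ℝ) := by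
      rw [hN]
      positivity
    have hNθ : 1 / (N : ℝ) ≤ θ / 2 := by
      have h1 : 2 / θ ≤ (N : ℝ) := by
        rw [hN]
        push_cast
        linarith
      rw [div_le_iff₀ hθ] at h1
      rw [div_le_iff₀ hNpos]
      linarith
    have hN1 : 1 / (N : ℝ) ≤ 1 := by
      rw [div_le_one hNpos, hN]
      push_cast
      have : (0 : ℝ) ≤ (N₁ : ℝ) := Nat.cast_nonneg _
      linarith
    refine ⟨(range N).image (ZL_phi (A j)), ?_⟩
    set Z : ℝ := ∑' s : ℕ, 1 / ((s : ℝ) + 1) ^ 2 with hZ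
    have hZ0 : 0 ≤ Z := tsum_nonneg fun s => by positivity
    filter_upwards [hRep, hinj, X.hm 2, hbig ((N : ℝ) ^ 2 * Z)] with l h1 h2 h3 h4
    refine (ZL_tail hC1 hf (A j) hA (c j) (X.w l) (h1 j) (h3.trans (h2.2 j)) N
      (Nat.succ_pos N₁)).trans ?_
    have h6 : X.m l ≤ n l j := h2.2 j
    have h7 : (1 / (N : ℝ)) ^ n l j ≤ (1 / (N : ℝ)) ^ X.m l :=
      pow_le_pow_of_le_one (by positivity) hN1 h6
    have h8 : (1 / (N : ℝ)) ^ X.m l ≤ (θ / 2) ^ X.m l :=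
      pow_le_pow_left₀ (by positivity) hNθ _
    calc (N : ℝ) ^ 2 * (1 / (N : ℝ)) ^ n l j * Z = ((N : ℝ) ^ 2 * Z) * (1 / (N : ℝ)) ^ n l j := by
          ring
      _ ≤ 2 ^ X.m l * (θ / 2) ^ X.m l :=
          mul_le_mul h4 (h7.trans h8) (by positivity) (by positivity)
      _ = θ ^ X.m l := by
          rw [← mul_pow]
          congr 1
          ring

end Pool.Agent.Work.MP_f1a024_nt.TZ
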