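import Pool.Agent.Work.MP_f1a024_nt.TZ.Stmts

/-!
# Item ZM of block TZ: the limit function along an ultrafilter (helper2)
-/

namespace Pool.Agent.Work.MP_f1a024_nt.TZ

open Finset MvPolynomial Filter
open Pool.Agent.Work.MP_f1a024_nt.AH (PG val D1 D2 D4)
open Pool.Agent.Work.MP_f1a024_nt.TU
open Pool.Agent.Work.MP_f1a024_nt.TV

theorem ZM_exists (𝒰 : Ultrafilter ℕ) (F : ℕ → ℕ → ℚ) (hF : ∀ l, CM (F l)) (s : ℕ) :
    ∃ c : ℚ, (c = 0 ∨ c = 1 ∨ c = -1) ∧ ∀ᶠ l : ℕ in (𝒰 : Filter ℕ), F l s = c := by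
  have h : ∀ᶠ l : ℕ in (𝒰 : Filter ℕ), F l s = 0 ∨ (F l s = 1 ∨ F l s = -1) :=
    Eventually.of_forall fun l => (hF l).2.2 s
  rcases (Ultrafilter.eventually_or.mp h) with h | h
  · exact ⟨0, Or.inl rfl, h⟩
  · rcases (Ultrafilter.eventually_or.mp h) with h | h
    · exact ⟨1, Or.inr (Or.inl rfl), h⟩
    · exact ⟨-1, Or.inr (Or.inr rfl), h⟩

theorem prfZM : ZM := by
  intro 𝒰 F hF
  choose f hf1 hf2 using ZM_exists 𝒰 F hF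
  refine ⟨f, ⟨?_, ?_, hf1⟩, hf2⟩
  · obtain ⟨l, hl⟩ := (hf2 1).exists
    rw [← hl]
    exact (hF l).1
  · intro a b
    obtain ⟨l, ⟨hl, hla⟩, hlb⟩ := (((hf2 (a * b)).and (hf2 a)).and (hf2 b)).exists
    rw [← hl, ← hla, ← hlb]
    exact (hF l).2.1 a b

end Pool.Agent.Work.MP_f1a024_nt.TZ
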