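import Pool.Agent.Work.MP_f1a024_nt.TZ.Stmts

/-!
# Item ZN of block TZ: closeness of the values along the ultrafilter
-/

set_option autoImplicit false

namespace Pool.Agent.Work.MP_f1a024_nt.TZ

open Finset MvPolynomial Filter
open Pool.Agent.Work.MP_f1a024_nt.AH (PG val D1 D2 D4)
open Pool.Agent.Work.MP_f1a024_nt.TU
open Pool.Agent.Work.MP_f1a024_nt.TV

/-- the value of `fq` without excluded primes -/
theorem ZN_fq (f : ℕ → ℚ) (s : ℕ) : fq f ∅ s = if s = 0 then 0 else f s := by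
  show (if s = 0 then 0 else if ∀ q ∈ (∅ : Finset Nat.Primes), ¬ (q : ℕ) ∣ s then f s else 0) = _
  by_cases hs : s = 0
  · rw [if_pos hs, if_pos hs]
  · rw [if_neg hs, if_neg hs, if_pos]
    intro q hq
    exact absurd hq (Finset.notMem_empty q)

/-- the coefficients are bounded by `1` -/
theorem ZN_abs (f : ℕ → ℚ) (hf : CM f) (s : ℕ) : |((fq f ∅ s : ℚ) : ℝ)| ≤ 1 := by
  rw [ZN_fq]
  by_cases hs : s = 0
  · rw [if_pos hs]
    simp
  · rw [if_neg hs]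
    rcases hf.2.2 s with h | h | h
    · rw [h]
      simp
    · rw [h]
      simp
    · rw [h]
      simp

/-- summability -/
theorem ZN_sum (f : ℕ → ℚ) (hf : CM f) (n : ℕ) (hn : 2 ≤ n) :
    Summable fun s : ℕ => ((fq f ∅ s : ℚ) : ℝ) / (s : ℝ) ^ n := by
  refine Summable.of_norm_bounded (g := fun s : ℕ => 1 / (s : ℝ) ^ n)
    (Real.summable_one_div_nat_pow.2 (by omega)) fun s => ?_
  rw [Real.norm_eq_abs, abs_div, abs_of_nonneg (by positivity : (0 : ℝ) ≤ (s : ℝ) ^ n)]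
  exact div_le_div_of_nonneg_right (ZN_abs f hf s) (by positivity)

/-- the difference of the values of two functions which agree below `N` -/
theorem ZN_diff (g f : ℕ → ℚ) (hg : CM g) (hf : CM f) (N n : ℕ) (hN : 1 ≤ N) (hn : 2 ≤ n)
    (h : ∀ s < N, g s = f s) :
    |val (fq g ∅) n - val (fq f ∅) n| ≤
      2 * (N : ℝ) ^ 2 * (∑' s : ℕ, 1 / (s : ℝ) ^ 2) * (1 / (N : ℝ)) ^ n := by
  have hNr : (0 : ℝ) < N := by exact_mod_cast hN
  have hs2 : Summable fun s : ℕ => 1 / (s : ℝ) ^ 2 := Real.summable_one_div_nat_pow.2 (by norm_num)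
  have hsub : val (fq g ∅) n - val (fq f ∅) n =
      ∑' s : ℕ, (((fq g ∅ s : ℚ) : ℝ) / (s : ℝ) ^ n - ((fq f ∅ s : ℚ) : ℝ) / (s : ℝ) ^ n) := by
    unfold AH.val
    rw [(ZN_sum g hg n hn).tsum_sub (ZN_sum f hf n hn)]
  rw [hsub, ← Real.norm_eq_abs]
  have hH : HasSum (fun s : ℕ => 2 * (N : ℝ) ^ 2 * (1 / (N : ℝ)) ^ n * (1 / (s : ℝ) ^ 2))
      (2 * (N : ℝ) ^ 2 * (1 / (N : ℝ)) ^ n * ∑' s : ℕ, 1 / (s : ℝ) ^ 2) :=
    hs2.hasSum.mul_left _
  have hb := tsum_of_norm_bounded hH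
    (f := fun s : ℕ => ((fq g ∅ s : ℚ) : ℝ) / (s : ℝ) ^ n - ((fq f ∅ s : ℚ) : ℝ) / (s : ℝ) ^ n) ?_
  · refine hb.trans (le_of_eq ?_)
    ring
  · intro s
    by_cases hsN : s < N
    · have he : fq g ∅ s = fq f ∅ s := by
        rw [ZN_fq, ZN_fq, h s hsN]
      show ‖((fq g ∅ s : ℚ) : ℝ) / (s : ℝ) ^ n - ((fq f ∅ s : ℚ) : ℝ) / (s : ℝ) ^ n‖ ≤ _
      rw [he, sub_self, norm_zero]
      positivity
    · push Not at hsN
      have hsr : (N : ℝ) ≤ s := by exact_mod_cast hsN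
      have hs0 : (0 : ℝ) < s := lt_of_lt_of_le hNr hsr
      show ‖((fq g ∅ s : ℚ) : ℝ) / (s : ℝ) ^ n - ((fq f ∅ s : ℚ) : ℝ) / (s : ℝ) ^ n‖ ≤ _
      rw [← sub_div, Real.norm_eq_abs, abs_div,
        abs_of_nonneg (by positivity : (0 : ℝ) ≤ (s : ℝ) ^ n)]
      have h1 : |((fq g ∅ s : ℚ) : ℝ) - ((fq f ∅ s : ℚ) : ℝ)| ≤ 2 := by
        refine (abs_sub _ _).trans ?_
        have ha := ZN_abs g hg s
        have hb := ZN_abs f hf s
        linarith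
      obtain ⟨r, rfl⟩ : ∃ r, n = r + 2 := ⟨n - 2, by omega⟩
      have h2 : (N : ℝ) ^ r ≤ (s : ℝ) ^ r := pow_le_pow_left₀ hNr.le hsr r
      rw [div_le_iff₀ (by positivity)]
      refine h1.trans ?_
      have h3 : 2 * (N : ℝ) ^ 2 * (1 / (N : ℝ)) ^ (r + 2) * (1 / (s : ℝ) ^ 2) * (s : ℝ) ^ (r + 2) =
          2 * ((s : ℝ) ^ r / (N : ℝ) ^ r) := by
        rw [one_div, inv_pow]
        field_simp
        ring
      rw [h3]
      have h4 : 1 ≤ (s : ℝ) ^ r / (N : ℝ) ^ r := by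
        rw [le_div_iff₀ (by positivity), one_mul]
        exact h2
      linarith

/-- ZN -/
theorem prfZN : ZN := by
  intro κ X k n hn F f hF hf hconv j θ hθ
  obtain ⟨N, hN2, hNθ⟩ : ∃ N : ℕ, 1 ≤ N ∧ 1 / (N : ℝ) ≤ θ / 2 := by
    obtain ⟨N, hN⟩ := exists_nat_ge (2 / θ)
    refine ⟨max N 1, le_max_right _ _, ?_⟩
    have h1 : 2 / θ ≤ ((max N 1 : ℕ) : ℝ) := by
      refine hN.trans ?_
      exact_mod_cast le_max_left N 1
    have h2 : (0 : ℝ) < ((max N 1 : ℕ) : ℝ) := by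
      exact_mod_cast lt_of_lt_of_le Nat.zero_lt_one (le_max_right N 1)
    rw [div_le_iff₀ hθ] at h1
    rw [div_le_iff₀ h2]
    linarith
  set c : ℝ := 2 * (N : ℝ) ^ 2 * (∑' s : ℕ, 1 / (s : ℝ) ^ 2) with hc
  obtain ⟨M, hM⟩ := pow_unbounded_of_one_lt c (one_lt_two : (1 : ℝ) < 2)
  have hagree : ∀ᶠ l : ℕ in (X.𝒰 : Filter ℕ), ∀ s ∈ Finset.range N, F l s = f s := by
    rw [Filter.eventually_all_finset]
    intro s _
    exact hconv s
  have hc0 : 0 ≤ c := by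
    rw [hc]
    have : 0 ≤ ∑' s : ℕ, 1 / (s : ℝ) ^ 2 := tsum_nonneg fun s => by positivity
    positivity
  filter_upwards [hagree, hn.2, X.hm (max M 2)] with l h1 h2 h3
  have hm2 : 2 ≤ X.m l := le_trans (le_max_right _ _) h3
  have hmM : M ≤ X.m l := le_trans (le_max_left _ _) h3
  have hnm : X.m l ≤ n l j := h2.2 j
  have hd := ZN_diff (F l) f (hF l) hf N (n l j) hN2 (hm2.trans hnm)
    (fun s hs => h1 s (Finset.mem_range.2 hs))
  rw [← hc] at hd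
  refine hd.trans ?_
  have hNr : (0 : ℝ) < N := by exact_mod_cast hN2
  have h4 : (1 / (N : ℝ)) ^ (n l j) ≤ (1 / (N : ℝ)) ^ (X.m l) := by
    refine pow_le_pow_of_le_one (by positivity) ?_ hnm
    rw [div_le_one hNr]
    exact_mod_cast hN2
  have h5 : (1 / (N : ℝ)) ^ (X.m l) ≤ (θ / 2) ^ (X.m l) :=
    pow_le_pow_left₀ (by positivity) hNθ _
  have h6 : (2 : ℝ) ^ M ≤ 2 ^ X.m l := pow_le_pow_right₀ one_le_two hmM
  calc c * (1 / (N : ℝ)) ^ (n l j) ≤ c * (θ / 2) ^ (X.m l) :=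
        mul_le_mul_of_nonneg_left (h4.trans h5) hc0
    _ ≤ 2 ^ X.m l * (θ / 2) ^ (X.m l) :=
        mul_le_mul_of_nonneg_right (hM.le.trans h6) (by positivity)
    _ = θ ^ X.m l := by
        rw [← mul_pow]
        congr 1
        ring

end Pool.Agent.Work.MP_f1a024_nt.TZ
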