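import Pool.Agent.Work.MP_f1a024_nt.TZ.Stmts

/-!
# Block TZ: finite Euler products (item ZP)
-/

namespace Pool.Agent.Work.MP_f1a024_nt.TZ

open Finset MvPolynomial Filter
open Pool.Agent.Work.MP_f1a024_nt.AH (PG val D1 D2 D4)
open Pool.Agent.Work.MP_f1a024_nt.TU
open Pool.Agent.Work.MP_f1a024_nt.TV

theorem ZP_apply (f : ℕ → ℚ) (Q : Finset Nat.Primes) (n : ℕ) :
    fq f Q n = if n = 0 then 0 else if ∀ q ∈ Q, ¬ (q : ℕ) ∣ n then f n else 0 := rfl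

theorem ZP_abs (f : ℕ → ℚ) (hf : CM f) (Q : Finset Nat.Primes) (n : ℕ) :
    |((fq f Q n : ℚ) : ℝ)| ≤ 1 := by
  rw [ZP_apply]
  split_ifs
  · simp
  · rcases hf.2.2 n with h | h | h <;> rw [h] <;> simp
  · simp

theorem ZP_bound (f : ℕ → ℚ) (hf : CM f) (Q : Finset Nat.Primes) (n s : ℕ) :
    ‖((fq f Q s : ℚ) : ℝ) / (s : ℝ) ^ n‖ ≤ 1 / (s : ℝ) ^ n := by
  rw [Real.norm_eq_abs, abs_div, abs_of_nonneg (pow_nonneg (Nat.cast_nonneg s) n : (0 : ℝ) ≤ _)]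
  exact div_le_div_of_nonneg_right (ZP_abs f hf Q s) (pow_nonneg (Nat.cast_nonneg s) n)

theorem ZP_summable (f : ℕ → ℚ) (hf : CM f) (Q : Finset Nat.Primes) (n : ℕ) (hn : 2 ≤ n) :
    Summable fun s : ℕ => ((fq f Q s : ℚ) : ℝ) / (s : ℝ) ^ n :=
  Summable.of_norm_bounded (Real.summable_one_div_nat_pow.2 (by omega : 1 < n))
    fun s => ZP_bound f hf Q n s

/-- the values below `N` if `Q` contains all primes below `N` -/
theorem ZP_small (f : ℕ → ℚ) (Q : Finset Nat.Primes) (N : ℕ)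
    (hQ : ∀ q : Nat.Primes, (q : ℕ) < N → q ∈ Q) (s : ℕ) (hs : s < N) (h1 : s ≠ 1) :
    fq f Q s = 0 := by
  rw [ZP_apply]
  split_ifs with h0 h2
  · rfl
  · exfalso
    have hp := Nat.minFac_prime h1
    have hle : s.minFac ≤ s := Nat.minFac_le (Nat.pos_of_ne_zero h0)
    exact h2 ⟨s.minFac, hp⟩ (hQ ⟨s.minFac, hp⟩ (lt_of_le_of_lt hle hs)) (Nat.minFac_dvd s)
  · rfl

theorem ZP_one (f : ℕ → ℚ) (hf : CM f) (Q : Finset Nat.Primes) : fq f Q 1 = 1 := by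
  rw [ZP_apply, if_neg one_ne_zero, if_pos, hf.1]
  intro q _ hd
  exact q.2.one_lt.ne' (Nat.dvd_one.1 hd)

theorem ZP_sum (f : ℕ → ℚ) (hf : CM f) (Q : Finset Nat.Primes) (N n : ℕ) (hN : 2 ≤ N)
    (hQ : ∀ q : Nat.Primes, (q : ℕ) < N → q ∈ Q) :
    ∑ s ∈ Finset.range N, ((fq f Q s : ℚ) : ℝ) / (s : ℝ) ^ n = 1 := by
  rw [Finset.sum_eq_single 1]
  · rw [ZP_one f hf Q]
    simp
  · intro s hs h1
    rw [ZP_small f Q N hQ s (Finset.mem_range.1 hs) h1]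
    simp
  · intro h
    exact absurd (Finset.mem_range.2 (by omega)) h

theorem ZP_first (hVEU : VEU) (f : ℕ → ℚ) (hf : CM f) (Q : Finset Nat.Primes) (n : ℕ)
    (hn : 2 ≤ n) :
    val (fq f ∅) n * ∏ q ∈ Q, (1 - ((f q : ℚ) : ℝ) * (((q : ℕ) : ℝ) ^ n)⁻¹) =
      val (fq f Q) n := by
  induction Q using Finset.induction_on with
  | empty => rw [Finset.prod_empty, mul_one]
  | insert q Q hq ih =>
    rw [Finset.prod_insert hq, ← hVEU f hf Q q hq n hn, ← ih]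
    ring

theorem ZP_second (f : ℕ → ℚ) (hf : CM f) (n : ℕ) (hn : 2 ≤ n) (ε : ℝ) (hε : 0 < ε) :
    ∃ N : ℕ, ∀ Q : Finset Nat.Primes, (∀ q : Nat.Primes, (q : ℕ) < N → q ∈ Q) →
      |val (fq f Q) n - 1| ≤ ε := by
  have hu : Summable fun s : ℕ => 1 / (s : ℝ) ^ n :=
    Real.summable_one_div_nat_pow.2 (by omega : 1 < n)
  have ht := tendsto_sum_nat_add fun s : ℕ => 1 / (s : ℝ) ^ n
  have h1 : ∀ᶠ N : ℕ in atTop, ∑' k : ℕ, 1 / ((k + N : ℕ) : ℝ) ^ n < ε :=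
    ht.eventually (gt_mem_nhds hε)
  obtain ⟨N, hN1, hN2⟩ := (h1.and (eventually_ge_atTop 2)).exists
  refine ⟨N, fun Q hQ => ?_⟩
  have hs := ZP_summable f hf Q n hn
  have h2 : val (fq f Q) n = 1 + ∑' k : ℕ, ((fq f Q (k + N) : ℚ) : ℝ) / ((k + N : ℕ) : ℝ) ^ n := by
    unfold AH.val
    rw [← hs.sum_add_tsum_nat_add N, ZP_sum f hf Q N n hN2 hQ]
  have hu2 : Summable fun k : ℕ => 1 / ((k + N : ℕ) : ℝ) ^ n :=
    (summable_nat_add_iff (f := fun s : ℕ => 1 / (s : ℝ) ^ n) N).2 hu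
  rw [h2, add_sub_cancel_left, ← Real.norm_eq_abs]
  have h3 := tsum_of_norm_bounded hu2.hasSum fun k => ZP_bound f hf Q n (k + N)
  exact h3.trans hN1.le

theorem prfZP (hVEU : VEU) : ZP :=
  ⟨fun f hf Q n hn => ZP_first hVEU f hf Q n hn, fun f hf n hn ε hε => ZP_second f hf n hn ε hε⟩

end Pool.Agent.Work.MP_f1a024_nt.TZ
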