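import Pool.Agent.Work.MP_f1a024_nt.TZ.Stmts

/-!
# Block TZ, item ZQ: strict inequality
-/

set_option autoImplicit false

namespace Pool.Agent.Work.MP_f1a024_nt.TZ

open Finset MvPolynomial Filter
open Pool.Agent.Work.MP_f1a024_nt.AH (PG val D1 D2 D4)
open Pool.Agent.Work.MP_f1a024_nt.TU
open Pool.Agent.Work.MP_f1a024_nt.TV

/-- comparison of two finite products -/
lemma ZQ_prod {ι : Type} [DecidableEq ι] (Q : Finset ι) (p r : ι → ℝ) (δ : ℝ) (i₁ : ι)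
    (h1 : i₁ ∈ Q) (hp : ∀ i, 0 < p i) (hpr : ∀ i, p i ≤ r i) (h2 : p i₁ ≤ (1 - δ) * r i₁) :
    ∏ i ∈ Q, p i ≤ (1 - δ) * ∏ i ∈ Q, r i := by
  rw [← Finset.mul_prod_erase Q p h1, ← Finset.mul_prod_erase Q r h1, ← mul_assoc]
  have h3 : ∏ i ∈ Q.erase i₁, p i ≤ ∏ i ∈ Q.erase i₁, r i :=
    Finset.prod_le_prod (fun i _ => (hp i).le) (fun i _ => hpr i)
  exact mul_le_mul h2 h3 (Finset.prod_nonneg fun i _ => (hp i).le) (le_trans (hp i₁).le h2)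

lemma ZQ_z (q : ℕ) (hq : q.Prime) (n : ℕ) (hn : 2 ≤ n) :
    0 < ((q : ℝ) ^ n)⁻¹ ∧ ((q : ℝ) ^ n)⁻¹ < 1 := by
  have h2 : (2 : ℝ) ≤ (q : ℝ) := by exact_mod_cast hq.two_le
  have h3 : (1 : ℝ) < (q : ℝ) ^ n := one_lt_pow₀ (by linarith) (by omega)
  exact ⟨by positivity, inv_lt_one_of_one_lt₀ h3⟩

/-- the comparison of two functions -/
lemma ZQ_lt (hZP : ZP) (f g : ℕ → ℚ) (q₁ : ℕ) (hf : CM f) (hg : CM g) (hq₁ : q₁.Prime)
    (hle : ∀ q : ℕ, q.Prime → g q ≤ f q) (hlt : g q₁ < f q₁) (n : ℕ) (hn : 2 ≤ n) :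
    val (fq g ∅) n ≠ val (fq f ∅) n := by
  intro heq
  obtain ⟨hz0, hz1⟩ := ZQ_z q₁ hq₁ n hn
  set z : ℝ := ((q₁ : ℝ) ^ n)⁻¹ with hz
  obtain ⟨N1, hN1⟩ := hZP.2 f hf n hn (z / 8) (by positivity)
  obtain ⟨N2, hN2⟩ := hZP.2 g hg n hn (z / 8) (by positivity)
  set N : ℕ := N1 + N2 + q₁ + 1 with hN
  set Q : Finset Nat.Primes := Finset.subtype Nat.Prime (Finset.range N) with hQ
  have hmem : ∀ q : Nat.Primes, (q : ℕ) < N → q ∈ Q := by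
    intro q hq
    rw [hQ]
    exact Finset.mem_subtype.2 (Finset.mem_range.2 hq)
  have ha := hN1 Q (fun q hq => hmem q (by omega))
  have hb := hN2 Q (fun q hq => hmem q (by omega))
  have hA := hZP.1 f hf Q n hn
  have hB := hZP.1 g hg Q n hn
  rw [← hA] at ha
  rw [← hB, heq] at hb
  have hfac : ∀ (F : ℕ → ℚ), CM F → ∀ q : Nat.Primes,
      0 < 1 - ((F q : ℚ) : ℝ) * (((q : ℕ) : ℝ) ^ n)⁻¹ := by
    intro F hF q
    obtain ⟨w0, w1⟩ := ZQ_z q q.2 n hn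
    rcases hF.2.2 q with h | h | h
    · rw [h]; push_cast; linarith
    · rw [h]; push_cast; linarith
    · rw [h]; push_cast; linarith
  have hmono : ∀ q : Nat.Primes, 1 - ((f q : ℚ) : ℝ) * (((q : ℕ) : ℝ) ^ n)⁻¹ ≤
      1 - ((g q : ℚ) : ℝ) * (((q : ℕ) : ℝ) ^ n)⁻¹ := by
    intro q
    obtain ⟨w0, w1⟩ := ZQ_z q q.2 n hn
    have h : ((g q : ℚ) : ℝ) ≤ ((f q : ℚ) : ℝ) := by exact_mod_cast hle q q.2
    have := mul_le_mul_of_nonneg_right h w0.le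
    linarith
  have hstr : 1 - ((f q₁ : ℚ) : ℝ) * z ≤ (1 - z / 2) * (1 - ((g q₁ : ℚ) : ℝ) * z) := by
    rcases hf.2.2 q₁ with h | h | h <;> rcases hg.2.2 q₁ with h' | h' | h' <;>
      rw [h, h'] at hlt ⊢ <;> push_cast <;>
      first
        | (exfalso; norm_num at hlt; done)
        | nlinarith
  have hprod := ZQ_prod Q (fun q : Nat.Primes => 1 - ((f q : ℚ) : ℝ) * (((q : ℕ) : ℝ) ^ n)⁻¹)
    (fun q : Nat.Primes => 1 - ((g q : ℚ) : ℝ) * (((q : ℕ) : ℝ) ^ n)⁻¹) (z / 2)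
    (⟨q₁, hq₁⟩ : Nat.Primes) (hmem ⟨q₁, hq₁⟩ (by show q₁ < N; omega)) (hfac f hf) hmono hstr
  have hF0 : 0 < ∏ q ∈ Q, (1 - ((f q : ℚ) : ℝ) * (((q : ℕ) : ℝ) ^ n)⁻¹) :=
    Finset.prod_pos fun q _ => hfac f hf q
  set A : ℝ := val (fq f ∅) n with hAdef
  set PF : ℝ := ∏ q ∈ Q, (1 - ((f q : ℚ) : ℝ) * (((q : ℕ) : ℝ) ^ n)⁻¹) with hPF
  set PG' : ℝ := ∏ q ∈ Q, (1 - ((g q : ℚ) : ℝ) * (((q : ℕ) : ℝ) ^ n)⁻¹) with hPG
  have hprod' : PF ≤ (1 - z / 2) * PG' := hprod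
  rw [abs_le] at ha hb
  have hA0 : 0 < A := by
    by_contra hcon
    push Not at hcon
    have : A * PF ≤ 0 := mul_nonpos_of_nonpos_of_nonneg hcon hF0.le
    linarith [ha.1]
  have h5 : A * PF ≤ (1 - z / 2) * (A * PG') := by
    have := mul_le_mul_of_nonneg_left hprod' hA0.le
    linarith
  have h6 : (1 - z / 2) * (A * PG') ≤ (1 - z / 2) * (1 + z / 8) :=
    mul_le_mul_of_nonneg_left (by linarith [hb.2]) (by linarith)
  nlinarith [ha.1]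

theorem prfZQ (hZP : ZP) : ZQ := by
  intro f g σ N₀ q₁ hf hg hσ hfσ hgf hq₁ hN hne n hn
  rcases hσ with rfl | rfl
  · refine ZQ_lt hZP f g q₁ hf hg hq₁ ?_ ?_ n hn
    · intro q hq
      by_cases h : q ≤ N₀
      · exact (hgf q hq h).le
      · rw [hfσ q hq (by omega)]
        rcases hg.2.2 q with h' | h' | h' <;> rw [h'] <;> norm_num
    · rw [hfσ q₁ hq₁ hN]
      rcases hg.2.2 q₁ with h' | h' | h'
      · rw [h']; norm_num
      · exact absurd h' hne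
      · rw [h']; norm_num
  · refine (ZQ_lt hZP g f q₁ hg hf hq₁ ?_ ?_ n hn).symm
    · intro q hq
      by_cases h : q ≤ N₀
      · exact (hgf q hq h).ge
      · rw [hfσ q hq (by omega)]
        rcases hg.2.2 q with h' | h' | h' <;> rw [h'] <;> norm_num
    · rw [hfσ q₁ hq₁ hN]
      rcases hg.2.2 q₁ with h' | h' | h'
      · rw [h']; norm_num
      · rw [h']; norm_num
      · exact absurd h' hne

end Pool.Agent.Work.MP_f1a024_nt.TZ
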