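import Pool.Agent.Work.MP_f1a024_nt.TZ.Stmts

/-!
# Block TZ, item ZS: values of formal series, closure properties
-/

namespace Pool.Agent.Work.MP_f1a024_nt.TZ

open Finset MvPolynomial Filter
open Pool.Agent.Work.MP_f1a024_nt.AH (PG val D1 D2 D4)
open Pool.Agent.Work.MP_f1a024_nt.TU
open Pool.Agent.Work.MP_f1a024_nt.TV

/-- the absolute terms of the series -/
noncomputable def ZS_a {κ : ℕ} (w : Fin κ → ℕ) (h : Ev κ → ℚ) (b : Ev κ) : ℝ :=
  |((h b : ℚ) : ℝ)| * ((mo w b : ℚ) : ℝ)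

/-- the terms of the series -/
noncomputable def ZS_f {κ : ℕ} (w : Fin κ → ℕ) (h : Ev κ → ℚ) (b : Ev κ) : ℝ :=
  ((h b : ℚ) : ℝ) * ((mo w b : ℚ) : ℝ)

open Classical in
/-- cut off the terms in `S` -/
noncomputable def ZS_c {β : Type} (S : Finset β) (f : β → ℝ) (b : β) : ℝ :=
  if b ∈ S then 0 else f b

theorem ZS_c_nonneg {β : Type} (S : Finset β) (f : β → ℝ) (hf : ∀ b, 0 ≤ f b) (b : β) :
    0 ≤ ZS_c S f b := by
  unfold ZS_c
  split_ifs
  · exact le_refl _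
  · exact hf b

theorem ZS_c_le {β : Type} (S : Finset β) (f : β → ℝ) (hf : ∀ b, 0 ≤ f b) (b : β) :
    ZS_c S f b ≤ f b := by
  unfold ZS_c
  split_ifs
  · exact hf b
  · exact le_refl _

theorem ZS_c_summable {β : Type} (S : Finset β) (f : β → ℝ) (hf : ∀ b, 0 ≤ f b)
    (hs : Summable f) : Summable (ZS_c S f) :=
  Summable.of_nonneg_of_le (ZS_c_nonneg S f hf) (ZS_c_le S f hf) hs

theorem ZS_tail {β : Type} (S : Finset β) (f : β → ℝ) :
    ∑' b : {b : β // b ∉ S}, f b = ∑' b, ZS_c S f b := by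
  classical
  have h := tsum_subtype {b : β | b ∉ S} f
  refine Eq.trans h (tsum_congr fun b => ?_)
  unfold ZS_c
  by_cases hb : b ∈ S
  · rw [if_pos hb, Set.indicator_of_notMem]
    exact fun h' => h' hb
  · rw [if_neg hb, Set.indicator_of_mem]
    exact hb

section
variable {κ : ℕ} (hC1 : C1)
include hC1

theorem ZS_mo_pos (w : Fin κ → ℕ) (b : Ev κ) : (0 : ℝ) < ((mo w b : ℚ) : ℝ) := by
  exact_mod_cast ((hC1 κ).2.2.1 w b).1

theorem ZS_mo_le (w : Fin κ → ℕ) (b : Ev κ) : ((mo w b : ℚ) : ℝ) ≤ 1 := by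
  exact_mod_cast ((hC1 κ).2.2.1 w b).2

theorem ZS_a_nonneg (w : Fin κ → ℕ) (h : Ev κ → ℚ) (b : Ev κ) : 0 ≤ ZS_a w h b :=
  mul_nonneg (abs_nonneg _) (ZS_mo_pos hC1 w b).le

theorem ZS_norm (w : Fin κ → ℕ) (h : Ev κ → ℚ) (b : Ev κ) : ‖ZS_f w h b‖ = ZS_a w h b := by
  unfold ZS_f ZS_a
  rw [norm_mul, Real.norm_eq_abs, Real.norm_eq_abs, abs_of_pos (ZS_mo_pos hC1 w b)]

theorem ZS_a_le (w : Fin κ → ℕ) (h : Ev κ → ℚ) (b : Ev κ) :
    ZS_a w h b ≤ |((h b : ℚ) : ℝ)| :=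
  mul_le_of_le_one_right (abs_nonneg _) (ZS_mo_le hC1 w b)

/-- part (1) -/
theorem ZS_1 (X : Cx κ) (y : ℕ → ℝ) (hy : Ser X y) : Apx X ∅ y := by
  obtain ⟨h, hA, hB⟩ := hy
  intro θ hθ
  obtain ⟨S, hS⟩ := hB θ hθ
  refine ⟨∑ b ∈ S, monomial b (h b), fun v _ => Finset.notMem_empty _, ?_⟩
  filter_upwards [hA, hS] with l h12 h3
  obtain ⟨h1, h2⟩ := h12
  have h4 : ((evw (X.w l) (∑ b ∈ S, monomial b (h b)) : ℚ) : ℝ) =
      ∑ b ∈ S, ZS_f (X.w l) h b := by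
    rw [map_sum]
    push_cast
    refine Finset.sum_congr rfl fun b _ => ?_
    rw [(hC1 κ).2.2.2.2.1]
    push_cast
    rfl
  have h6 : Summable fun b => ‖ZS_f (X.w l) h b‖ := by
    simp only [ZS_norm hC1]
    exact h1
  have h5 : Summable (ZS_f (X.w l) h) := h6.of_norm
  have h7 : y l = ∑' b, ZS_f (X.w l) h b := h2
  rw [h4, h7, ← h5.sum_add_tsum_subtype_compl S, add_sub_cancel_left]
  have h8 : Summable fun b : {b : Ev κ // b ∉ S} => ‖ZS_f (X.w l) h b‖ :=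
    h6.subtype {b : Ev κ | b ∉ S}
  refine (norm_tsum_le_tsum_norm h8).trans ?_
  simp only [ZS_norm hC1]
  exact h3

theorem ZS_add (X : Cx κ) (y z : ℕ → ℝ) (hy : Ser X y) (hz : Ser X z) :
    Ser X fun l => y l + z l := by
  classical
  obtain ⟨h, hA, hB⟩ := hy
  obtain ⟨h', hA', hB'⟩ := hz
  have hle : ∀ l b, ZS_a (X.w l) (fun b => h b + h' b) b ≤
      ZS_a (X.w l) h b + ZS_a (X.w l) h' b := by
    intro l b
    unfold ZS_a
    rw [← add_mul]
    refine mul_le_mul_of_nonneg_right ?_ (ZS_mo_pos hC1 _ b).le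
    push_cast
    exact abs_add_le _ _
  refine ⟨fun b => h b + h' b, ?_, ?_⟩
  · filter_upwards [hA, hA'] with l h12 h12'
    obtain ⟨h1, h2⟩ := h12
    obtain ⟨h1', h2'⟩ := h12'
    refine ⟨Summable.of_nonneg_of_le (ZS_a_nonneg hC1 (X.w l) fun b => h b + h' b)
      (hle l) (h1.add h1'), ?_⟩
    have s1 : Summable (ZS_f (X.w l) h) := by
      refine Summable.of_norm ?_
      simp only [ZS_norm hC1]
      exact h1
    have s2 : Summable (ZS_f (X.w l) h') := by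
      refine Summable.of_norm ?_
      simp only [ZS_norm hC1]
      exact h1'
    have h7 : y l = ∑' b, ZS_f (X.w l) h b := h2
    have h7' : z l = ∑' b, ZS_f (X.w l) h' b := h2'
    rw [h7, h7', ← s1.tsum_add s2]
    refine tsum_congr fun b => ?_
    unfold ZS_f
    push_cast
    ring
  · intro θ hθ
    obtain ⟨S, hS⟩ := hB (θ / 2) (by positivity)
    obtain ⟨S', hS'⟩ := hB' (θ / 2) (by positivity)
    refine ⟨S ∪ S', ?_⟩
    filter_upwards [hA, hA', hS, hS', X.hm 1] with l h12 h12' h3 h3' hm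
    have t1 := h12.1
    have t1' := h12'.1
    have e := ZS_tail (S ∪ S') (ZS_a (X.w l) fun b => h b + h' b)
    refine le_trans (le_of_eq e) ?_
    have e3 : ∑' b, ZS_c S (ZS_a (X.w l) h) b ≤ (θ / 2) ^ X.m l :=
      le_trans (le_of_eq (ZS_tail S (ZS_a (X.w l) h)).symm) h3
    have e3' : ∑' b, ZS_c S' (ZS_a (X.w l) h') b ≤ (θ / 2) ^ X.m l :=
      le_trans (le_of_eq (ZS_tail S' (ZS_a (X.w l) h')).symm) h3'
    have c1 := ZS_c_summable S _ (ZS_a_nonneg hC1 (X.w l) h) t1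
    have c2 := ZS_c_summable S' _ (ZS_a_nonneg hC1 (X.w l) h') t1'
    have hpt : ∀ b, ZS_c (S ∪ S') (ZS_a (X.w l) fun b => h b + h' b) b ≤
        ZS_c S (ZS_a (X.w l) h) b + ZS_c S' (ZS_a (X.w l) h') b := by
      intro b
      by_cases hb : b ∈ S ∪ S'
      · have : ZS_c (S ∪ S') (ZS_a (X.w l) fun b => h b + h' b) b = 0 := if_pos hb
        rw [this]
        exact add_nonneg (ZS_c_nonneg S _ (ZS_a_nonneg hC1 (X.w l) h) b)
          (ZS_c_nonneg S' _ (ZS_a_nonneg hC1 (X.w l) h') b)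
      · have h0 : ZS_c (S ∪ S') (ZS_a (X.w l) fun b => h b + h' b) b =
            ZS_a (X.w l) (fun b => h b + h' b) b := if_neg hb
        rw [Finset.mem_union, not_or] at hb
        have h4 : ZS_c S (ZS_a (X.w l) h) b = ZS_a (X.w l) h b := if_neg hb.1
        have h5 : ZS_c S' (ZS_a (X.w l) h') b = ZS_a (X.w l) h' b := if_neg hb.2
        rw [h0, h4, h5]
        exact hle l b
    have c3 : Summable (ZS_c (S ∪ S') (ZS_a (X.w l) fun b => h b + h' b)) :=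
      Summable.of_nonneg_of_le
        (ZS_c_nonneg _ _ (ZS_a_nonneg hC1 (X.w l) fun b => h b + h' b)) hpt (c1.add c2)
    refine (c3.tsum_le_tsum hpt (c1.add c2)).trans ?_
    rw [c1.tsum_add c2]
    have h6 : 2 * (θ / 2) ^ X.m l ≤ θ ^ X.m l := by
      have h7 : (2 : ℝ) ≤ 2 ^ X.m l := by
        calc (2 : ℝ) = 2 ^ 1 := (pow_one _).symm
          _ ≤ 2 ^ X.m l := pow_le_pow_right₀ (by norm_num) hm
      have h8 : (0 : ℝ) ≤ (θ / 2) ^ X.m l := by positivity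
      calc 2 * (θ / 2) ^ X.m l ≤ 2 ^ X.m l * (θ / 2) ^ X.m l :=
            mul_le_mul_of_nonneg_right h7 h8
        _ = θ ^ X.m l := by rw [← mul_pow]; congr 1; ring
    linarith

/-- the product of the coefficients -/
theorem ZS_conv (w : Fin κ → ℕ) (h h' : Ev κ → ℚ) (c : Ev κ) :
    ∑ x ∈ antidiagonal c, ZS_f w h x.1 * ZS_f w h' x.2 =
      ZS_f w (fun c => ∑ x ∈ antidiagonal c, h x.1 * h' x.2) c := by
  unfold ZS_f
  push_cast
  rw [Finset.sum_mul]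
  refine Finset.sum_congr rfl fun x hx => ?_
  have hx' : x.1 + x.2 = c := Finset.HasAntidiagonal.mem_antidiagonal.mp hx
  rw [← hx', (hC1 κ).1 w x.1 x.2]
  push_cast
  ring

theorem ZS_conv_le (w : Fin κ → ℕ) (h h' : Ev κ → ℚ) (c : Ev κ) :
    ZS_a w (fun c => ∑ x ∈ antidiagonal c, h x.1 * h' x.2) c ≤
      ∑ x ∈ antidiagonal c, ZS_a w h x.1 * ZS_a w h' x.2 := by
  rw [← ZS_norm hC1, ← ZS_conv hC1]
  refine (norm_sum_le _ _).trans (le_of_eq ?_)
  refine Finset.sum_congr rfl fun x _ => ?_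
  rw [norm_mul, ZS_norm hC1, ZS_norm hC1]

/-- the total sum is bounded by a constant -/
theorem ZS_total (X : Cx κ) (h : Ev κ → ℚ)
    (hA : ∀ᶠ l : ℕ in (X.𝒰 : Filter ℕ), Summable (ZS_a (X.w l) h))
    (hB : ∀ θ : ℝ, 0 < θ → ∃ S : Finset (Ev κ), ∀ᶠ l : ℕ in (X.𝒰 : Filter ℕ),
      ∑' b, ZS_c S (ZS_a (X.w l) h) b ≤ θ ^ X.m l) :
    ∃ A : ℝ, 0 ≤ A ∧ ∀ᶠ l : ℕ in (X.𝒰 : Filter ℕ), ∑' b, ZS_a (X.w l) h b ≤ A := by
  obtain ⟨S, hS⟩ := hB 1 one_pos
  refine ⟨∑ b ∈ S, |((h b : ℚ) : ℝ)| + 1, by positivity, ?_⟩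
  filter_upwards [hA, hS] with l h1 h2
  rw [← h1.sum_add_tsum_subtype_compl S]
  rw [ZS_tail S (ZS_a (X.w l) h)]
  rw [one_pow] at h2
  have h3 : ∑ b ∈ S, ZS_a (X.w l) h b ≤ ∑ b ∈ S, |((h b : ℚ) : ℝ)| :=
    Finset.sum_le_sum fun b _ => ZS_a_le hC1 (X.w l) h b
  linarith

theorem ZS_mul (X : Cx κ) (y z : ℕ → ℝ) (hy : Ser X y) (hz : Ser X z) :
    Ser X fun l => y l * z l := by
  classical
  obtain ⟨h, hA, hB⟩ := hy
  obtain ⟨h', hA', hB'⟩ := hz
  have a0 : ∀ l b, 0 ≤ ZS_a (X.w l) h b := fun l b => ZS_a_nonneg hC1 _ _ b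
  have a0' : ∀ l b, 0 ≤ ZS_a (X.w l) h' b := fun l b => ZS_a_nonneg hC1 _ _ b
  have hA1 : ∀ᶠ l : ℕ in (X.𝒰 : Filter ℕ), Summable (ZS_a (X.w l) h) := by
    filter_upwards [hA] with l hl
    exact hl.1
  have hA1' : ∀ᶠ l : ℕ in (X.𝒰 : Filter ℕ), Summable (ZS_a (X.w l) h') := by
    filter_upwards [hA'] with l hl
    exact hl.1
  have hB1 : ∀ θ : ℝ, 0 < θ → ∃ S : Finset (Ev κ), ∀ᶠ l : ℕ in (X.𝒰 : Filter ℕ),
      ∑' b, ZS_c S (ZS_a (X.w l) h) b ≤ θ ^ X.m l := by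
    intro θ hθ
    obtain ⟨S, hS⟩ := hB θ hθ
    refine ⟨S, ?_⟩
    filter_upwards [hS] with l hl
    exact le_trans (le_of_eq (ZS_tail S (ZS_a (X.w l) h)).symm) hl
  have hB1' : ∀ θ : ℝ, 0 < θ → ∃ S : Finset (Ev κ), ∀ᶠ l : ℕ in (X.𝒰 : Filter ℕ),
      ∑' b, ZS_c S (ZS_a (X.w l) h') b ≤ θ ^ X.m l := by
    intro θ hθ
    obtain ⟨S, hS⟩ := hB' θ hθ
    refine ⟨S, ?_⟩
    filter_upwards [hS] with l hl
    exact le_trans (le_of_eq (ZS_tail S (ZS_a (X.w l) h')).symm) hl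
  refine ⟨fun c => ∑ x ∈ antidiagonal c, h x.1 * h' x.2, ?_, ?_⟩
  · filter_upwards [hA, hA'] with l h12 h12'
    obtain ⟨s1, e1⟩ := h12
    obtain ⟨s2, e2⟩ := h12'
    have sN : Summable fun x : Ev κ × Ev κ => ZS_a (X.w l) h x.1 * ZS_a (X.w l) h' x.2 :=
      Summable.mul_of_nonneg s1 s2 (a0 l) (a0' l)
    have sA := summable_sum_mul_antidiagonal_of_summable_mul sN
    refine ⟨Summable.of_nonneg_of_le (ZS_a_nonneg hC1 (X.w l) _) (ZS_conv_le hC1 _ h h') sA, ?_⟩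
    have t1 : Summable fun b => ‖ZS_f (X.w l) h b‖ := by
      simp only [ZS_norm hC1]
      exact s1
    have t2 : Summable fun b => ‖ZS_f (X.w l) h' b‖ := by
      simp only [ZS_norm hC1]
      exact s2
    have hfg := summable_mul_of_summable_norm t1 t2
    have P := t1.of_norm.tsum_mul_tsum_eq_tsum_sum_antidiagonal t2.of_norm hfg
    have h7 : y l = ∑' b, ZS_f (X.w l) h b := e1
    have h7' : z l = ∑' b, ZS_f (X.w l) h' b := e2
    rw [h7, h7', P]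
    exact tsum_congr fun c => ZS_conv hC1 (X.w l) h h' c
  · intro θ hθ
    obtain ⟨A, hA0, hAt⟩ := ZS_total hC1 X h hA1 hB1
    obtain ⟨A', hA0', hAt'⟩ := ZS_total hC1 X h' hA1' hB1'
    have hD : (1 : ℝ) ≤ A + A' + 1 := by linarith
    obtain ⟨S, hS⟩ := hB1 (θ / (A + A' + 1)) (by positivity)
    obtain ⟨S', hS'⟩ := hB1' (θ / (A + A' + 1)) (by positivity)
    refine ⟨(S ×ˢ S').image (fun x => x.1 + x.2), ?_⟩
    filter_upwards [hA1, hA1', hAt, hAt', hS, hS', X.hm 1] with l s1 s2 k1 k2 r1 r2 hm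
    refine le_trans (le_of_eq (ZS_tail ((S ×ˢ S').image (fun x => x.1 + x.2))
      (ZS_a (X.w l) fun c => ∑ x ∈ antidiagonal c, h x.1 * h' x.2))) ?_
    have c1 := ZS_c_summable S _ (a0 l) s1
    have c2 := ZS_c_summable S' _ (a0' l) s2
    have n1 := ZS_c_nonneg S _ (a0 l)
    have n2 := ZS_c_nonneg S' _ (a0' l)
    have m1 : Summable fun x : Ev κ × Ev κ =>
        ZS_c S (ZS_a (X.w l) h) x.1 * ZS_a (X.w l) h' x.2 :=
      Summable.mul_of_nonneg c1 s2 n1 (a0' l)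
    have m2 : Summable fun x : Ev κ × Ev κ =>
        ZS_a (X.w l) h x.1 * ZS_c S' (ZS_a (X.w l) h') x.2 :=
      Summable.mul_of_nonneg s1 c2 (a0 l) n2
    have q1 := summable_sum_mul_antidiagonal_of_summable_mul m1
    have q2 := summable_sum_mul_antidiagonal_of_summable_mul m2
    have hpt : ∀ c, ZS_c ((S ×ˢ S').image (fun x => x.1 + x.2))
        (ZS_a (X.w l) fun c => ∑ x ∈ antidiagonal c, h x.1 * h' x.2) c ≤
        (∑ x ∈ antidiagonal c, ZS_c S (ZS_a (X.w l) h) x.1 * ZS_a (X.w l) h' x.2) +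
        ∑ x ∈ antidiagonal c, ZS_a (X.w l) h x.1 * ZS_c S' (ZS_a (X.w l) h') x.2 := by
      intro c
      have z1 : 0 ≤ ∑ x ∈ antidiagonal c,
          ZS_c S (ZS_a (X.w l) h) x.1 * ZS_a (X.w l) h' x.2 :=
        Finset.sum_nonneg fun x _ => mul_nonneg (n1 _) (a0' l _)
      have z2 : 0 ≤ ∑ x ∈ antidiagonal c,
          ZS_a (X.w l) h x.1 * ZS_c S' (ZS_a (X.w l) h') x.2 :=
        Finset.sum_nonneg fun x _ => mul_nonneg (a0 l _) (n2 _)
      by_cases hc : c ∈ (S ×ˢ S').image (fun x => x.1 + x.2)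
      · refine le_trans (le_of_eq (if_pos hc)) (add_nonneg z1 z2)
      · refine le_trans (le_of_eq (if_neg hc)) ?_
        refine (ZS_conv_le hC1 (X.w l) h h' c).trans ?_
        rw [← Finset.sum_add_distrib]
        refine Finset.sum_le_sum fun x hx => ?_
        have hx' : x.1 + x.2 = c := Finset.HasAntidiagonal.mem_antidiagonal.mp hx
        by_cases h1 : x.1 ∈ S
        · have h2 : x.2 ∉ S' := by
            intro h2
            exact hc (Finset.mem_image.mpr ⟨x, Finset.mem_product.mpr ⟨h1, h2⟩, hx'⟩)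
          have h3 : ZS_c S' (ZS_a (X.w l) h') x.2 = ZS_a (X.w l) h' x.2 := if_neg h2
          rw [h3]
          have := mul_nonneg (n1 x.1) (a0' l x.2)
          linarith
        · have h3 : ZS_c S (ZS_a (X.w l) h) x.1 = ZS_a (X.w l) h x.1 := if_neg h1
          rw [h3]
          have := mul_nonneg (a0 l x.1) (n2 x.2)
          linarith
    have c3 := Summable.of_nonneg_of_le (ZS_c_nonneg _ _ (ZS_a_nonneg hC1 (X.w l) _)) hpt
      (q1.add q2)
    refine (c3.tsum_le_tsum hpt (q1.add q2)).trans ?_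
    rw [q1.tsum_add q2, ← c1.tsum_mul_tsum_eq_tsum_sum_antidiagonal s2 m1,
      ← s1.tsum_mul_tsum_eq_tsum_sum_antidiagonal c2 m2]
    have u0 : 0 ≤ ∑' b, ZS_a (X.w l) h b := tsum_nonneg (a0 l)
    have u0' : 0 ≤ ∑' b, ZS_a (X.w l) h' b := tsum_nonneg (a0' l)
    have v0 : 0 ≤ ∑' b, ZS_c S (ZS_a (X.w l) h) b := tsum_nonneg n1
    have v0' : 0 ≤ ∑' b, ZS_c S' (ZS_a (X.w l) h') b := tsum_nonneg n2
    have hp : (0 : ℝ) ≤ (θ / (A + A' + 1)) ^ X.m l := by positivity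
    have g1 : (∑' b, ZS_c S (ZS_a (X.w l) h) b) * ∑' b, ZS_a (X.w l) h' b ≤
        (θ / (A + A' + 1)) ^ X.m l * A' := mul_le_mul r1 k2 u0' hp
    have g2 : (∑' b, ZS_a (X.w l) h b) * ∑' b, ZS_c S' (ZS_a (X.w l) h') b ≤
        A * (θ / (A + A' + 1)) ^ X.m l := mul_le_mul k1 r2 v0' hA0
    have g3 : (A + A' + 1) * (θ / (A + A' + 1)) ^ X.m l ≤ θ ^ X.m l := by
      have h7 : A + A' + 1 ≤ (A + A' + 1) ^ X.m l := by
        calc A + A' + 1 = (A + A' + 1) ^ 1 := (pow_one _).symm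
          _ ≤ (A + A' + 1) ^ X.m l := pow_le_pow_right₀ hD hm
      calc (A + A' + 1) * (θ / (A + A' + 1)) ^ X.m l
          ≤ (A + A' + 1) ^ X.m l * (θ / (A + A' + 1)) ^ X.m l :=
            mul_le_mul_of_nonneg_right h7 hp
        _ = θ ^ X.m l := by
            rw [← mul_pow]
            congr 1
            field_simp
    nlinarith

theorem ZS_evw (X : Cx κ) (g : Rv κ) : Ser X fun l => ((evw (X.w l) g : ℚ) : ℝ) := by
  classical
  refine ⟨fun b => g.coeff b, ?_, ?_⟩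
  · refine Eventually.of_forall fun l => ⟨?_, ?_⟩
    · refine summable_of_ne_finset_zero (s := g.support) fun b hb => ?_
      show |((g.coeff b : ℚ) : ℝ)| * ((mo (X.w l) b : ℚ) : ℝ) = 0
      rw [MvPolynomial.notMem_support_iff.mp hb]
      simp
    · have h1 : ∑' b, ((g.coeff b : ℚ) : ℝ) * ((mo (X.w l) b : ℚ) : ℝ) =
          ∑ b ∈ g.support, ((g.coeff b : ℚ) : ℝ) * ((mo (X.w l) b : ℚ) : ℝ) :=
        tsum_eq_sum fun b hb => by
          rw [MvPolynomial.notMem_support_iff.mp hb]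
          simp
      show ((evw (X.w l) g : ℚ) : ℝ) = ∑' b, ((g.coeff b : ℚ) : ℝ) * ((mo (X.w l) b : ℚ) : ℝ)
      rw [h1, (hC1 κ).2.2.2.1 (X.w l) g]
      push_cast
      rfl
  · intro θ hθ
    refine ⟨g.support, Eventually.of_forall fun l => ?_⟩
    have h1 : ∑' b : {b : Ev κ // b ∉ g.support},
        |((g.coeff b : ℚ) : ℝ)| * ((mo (X.w l) b : ℚ) : ℝ) = 0 := by
      refine (tsum_congr fun b => ?_).trans tsum_zero
      rw [MvPolynomial.notMem_support_iff.mp b.2]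
      simp
    rw [h1]
    positivity

omit hC1 in
theorem ZS_congr (X : Cx κ) (y z : ℕ → ℝ) (h : ∀ᶠ l : ℕ in (X.𝒰 : Filter ℕ), y l = z l)
    (hy : Ser X y) : Ser X z := by
  obtain ⟨c, hA, hB⟩ := hy
  refine ⟨c, ?_, hB⟩
  filter_upwards [hA, h] with l h1 h2
  exact ⟨h1.1, h2 ▸ h1.2⟩

theorem ZS_sum (X : Cx κ) (ι : Type) (s : Finset ι) (y : ι → ℕ → ℝ)
    (hy : ∀ i ∈ s, Ser X (y i)) : Ser X fun l => ∑ i ∈ s, y i l := by
  classical
  induction s using Finset.induction_on with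
  | empty =>
    refine ZS_congr X _ _ (Eventually.of_forall fun l => ?_) (ZS_evw hC1 X 0)
    simp
  | insert i s his ih =>
    refine ZS_congr X _ _ (Eventually.of_forall fun l => ?_)
      (ZS_add hC1 X _ _ (hy i (Finset.mem_insert_self i s))
        (ih fun j hj => hy j (Finset.mem_insert_of_mem hj)))
    show y i l + ∑ j ∈ s, y j l = ∑ j ∈ insert i s, y j l
    rw [Finset.sum_insert his]

theorem ZS_prod (X : Cx κ) (ι : Type) (s : Finset ι) (y : ι → ℕ → ℝ)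
    (hy : ∀ i ∈ s, Ser X (y i)) : Ser X fun l => ∏ i ∈ s, y i l := by
  classical
  induction s using Finset.induction_on with
  | empty =>
    refine ZS_congr X _ _ (Eventually.of_forall fun l => ?_) (ZS_evw hC1 X 1)
    simp
  | insert i s his ih =>
    refine ZS_congr X _ _ (Eventually.of_forall fun l => ?_)
      (ZS_mul hC1 X _ _ (hy i (Finset.mem_insert_self i s))
        (ih fun j hj => hy j (Finset.mem_insert_of_mem hj)))
    show y i l * ∏ j ∈ s, y j l = ∏ j ∈ insert i s, y j l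
    rw [Finset.prod_insert his]

theorem ZS_pow (X : Cx κ) (y : ℕ → ℝ) (e : ℕ) (hy : Ser X y) : Ser X fun l => y l ^ e := by
  refine ZS_congr X _ _ (Eventually.of_forall fun l => ?_)
    (ZS_prod hC1 X ℕ (Finset.range e) (fun _ => y) fun _ _ => hy)
  simp

end

theorem prfZS (hC1 : C1) : ZS := by
  intro κ X
  exact ⟨ZS_1 hC1 X, ZS_add hC1 X, ZS_mul hC1 X, ZS_evw hC1 X, ZS_congr X, ZS_sum hC1 X,
    ZS_prod hC1 X, fun y e => ZS_pow hC1 X y e⟩

end Pool.Agent.Work.MP_f1a024_nt.TZ
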