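import Pool.Agent.Work.MP_f1a024_nt.TZ.Stmts

/-!
# Block TZ, item ZT: the Taylor argument
-/

namespace Pool.Agent.Work.MP_f1a024_nt.TZ

open Finset Filter
open Pool.Agent.Work.MP_f1a024_nt.TU

/-- powers of a bounded sequence -/
theorem ZT_pow (hNA : NA) {κ : ℕ} (X : Cx κ) (y : ℕ → ℝ) (hy : Bdd X y) (e : ℕ) :
    Bdd X fun l => y l ^ e := by
  obtain ⟨-, -, -, -, -, -, h7, h8, -, -, -⟩ := hNA κ X
  induction e with
  | zero =>
    have h1 := h8 1
    have h2 : (fun l => y l ^ 0) = fun _ : ℕ => (1 : ℝ) := by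
      funext l
      exact pow_zero _
    rw [h2]
    exact h1
  | succ e ih =>
    have h1 := h7 _ _ ih hy
    have h2 : (fun l => y l ^ (e + 1)) = fun l => y l ^ e * y l := by
      funext l
      exact pow_succ _ _
    rw [h2]
    exact h1

/-- the Taylor coefficient -/
noncomputable def ZT_D {d : ℕ} (c : Fin (d + 1) → ℕ → ℝ) (v : ℕ → ℝ) (j : Fin (d + 1)) (l : ℕ) : ℝ :=
  ∑ e : Fin (d + 1), (((e : ℕ).choose (j : ℕ) : ℕ) : ℝ) * c e l * v l ^ ((e : ℕ) - (j : ℕ))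

/-- the expansion of a power -/
theorem ZT_binom (d : ℕ) (e : Fin (d + 1)) (u v : ℝ) : u ^ (e : ℕ) =
    ∑ j : Fin (d + 1), (((e : ℕ).choose (j : ℕ) : ℕ) : ℝ) * v ^ ((e : ℕ) - (j : ℕ)) *
      (u - v) ^ (j : ℕ) := by
  have h1 : u ^ (e : ℕ) = ((u - v) + v) ^ (e : ℕ) := by rw [sub_add_cancel]
  rw [h1, add_pow]
  have h2 : ∑ j : Fin (d + 1), (((e : ℕ).choose (j : ℕ) : ℕ) : ℝ) * v ^ ((e : ℕ) - (j : ℕ)) *
      (u - v) ^ (j : ℕ) = ∑ j ∈ Finset.range (d + 1),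
        (((e : ℕ).choose j : ℕ) : ℝ) * v ^ ((e : ℕ) - j) * (u - v) ^ j :=
    Fin.sum_univ_eq_sum_range
      (fun j => (((e : ℕ).choose j : ℕ) : ℝ) * v ^ ((e : ℕ) - j) * (u - v) ^ j) (d + 1)
  rw [h2]
  have h3 : Finset.range ((e : ℕ) + 1) ⊆ Finset.range (d + 1) := by
    intro x hx
    rw [Finset.mem_range] at hx ⊢
    have := e.2
    omega
  rw [← Finset.sum_subset h3]
  · refine Finset.sum_congr rfl ?_
    intro j _
    ring
  · intro x _ hx
    rw [Finset.mem_range, not_lt] at hx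
    rw [Nat.choose_eq_zero_of_lt (by omega)]
    simp

/-- the Taylor expansion -/
theorem ZT_taylor {d : ℕ} (c : Fin (d + 1) → ℕ → ℝ) (u v : ℕ → ℝ) (l : ℕ) :
    ∑ e : Fin (d + 1), c e l * u l ^ (e : ℕ) =
      ∑ j : Fin (d + 1), ZT_D c v j l * (u l - v l) ^ (j : ℕ) := by
  have h1 : ∀ e : Fin (d + 1), c e l * u l ^ (e : ℕ) = ∑ j : Fin (d + 1),
      (((e : ℕ).choose (j : ℕ) : ℕ) : ℝ) * c e l * v l ^ ((e : ℕ) - (j : ℕ)) *
        (u l - v l) ^ (j : ℕ) := by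
    intro e
    rw [ZT_binom d e (u l) (v l), Finset.mul_sum]
    refine Finset.sum_congr rfl ?_
    intro j _
    ring
  rw [Finset.sum_congr rfl fun e _ => h1 e, Finset.sum_comm]
  refine Finset.sum_congr rfl ?_
  intro j _
  unfold ZT_D
  rw [Finset.sum_mul]

theorem prfZT (hNA : NA) : ZT := by
  intro κ X d c u v hc hv huv hne hz hex
  obtain ⟨h1, h2, h3, h4, h5, h6, h7, h8, h9, h10, h11⟩ := hNA κ X
  -- the smallest index
  obtain ⟨j₀, hj₀, hmin⟩ : ∃ j : Fin (d + 1), ¬ Neg X (ZT_D c v j) ∧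
      ∀ i : Fin (d + 1), i < j → Neg X (ZT_D c v i) := by
    obtain ⟨j, hj⟩ := hex
    obtain ⟨j₀, hj₀, hm⟩ := (wellFounded_lt (α := Fin (d + 1))).has_min
      {j : Fin (d + 1) | ¬ Neg X (ZT_D c v j)} ⟨j, hj⟩
    refine ⟨j₀, hj₀, ?_⟩
    intro i hi
    by_contra hcon
    exact hm i hcon hi
  have hzero : ∀ i : Fin (d + 1), i < j₀ →
      ∀ᶠ l : ℕ in (X.𝒰 : Filter ℕ), ZT_D c v i l = 0 := fun i hi => hz i (hmin i hi)
  have hzero' : ∀ᶠ l : ℕ in (X.𝒰 : Filter ℕ), ∀ i : Fin (d + 1), i < j₀ → ZT_D c v i l = 0 := by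
    rw [Filter.eventually_all]
    intro i
    by_cases hi : i < j₀
    · exact (hzero i hi).mono fun l hl _ => hl
    · exact Filter.Eventually.of_forall fun l hl => absurd hl hi
  -- bounded sequences
  have hw : Bdd X fun l => u l - v l := ⟨1, le_rfl, huv 1 one_pos⟩
  have hD : ∀ j, Bdd X (ZT_D c v j) := by
    intro j
    refine h9 _ _ _ ?_
    intro e _
    exact h7 _ _ (h7 _ _ (h8 _) (hc e)) (ZT_pow hNA X v hv _)
  have hR : Bdd X fun l => ∑ j : Fin (d + 1), if j₀ < j then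
      ZT_D c v j l * (u l - v l) ^ ((j : ℕ) - (j₀ : ℕ) - 1) else 0 := by
    refine h9 _ Finset.univ (fun (j : Fin (d + 1)) l => if j₀ < j then
      ZT_D c v j l * (u l - v l) ^ ((j : ℕ) - (j₀ : ℕ) - 1) else 0) ?_
    intro j _
    by_cases hj : j₀ < j
    · have h12 : (fun l => if j₀ < j then
          ZT_D c v j l * (u l - v l) ^ ((j : ℕ) - (j₀ : ℕ) - 1) else 0) =
          fun l => ZT_D c v j l * (u l - v l) ^ ((j : ℕ) - (j₀ : ℕ) - 1) := by
        funext l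
        exact if_pos hj
      show Bdd X fun l => if j₀ < j then
          ZT_D c v j l * (u l - v l) ^ ((j : ℕ) - (j₀ : ℕ) - 1) else 0
      rw [h12]
      exact h7 _ _ (hD j) (ZT_pow hNA X _ hw _)
    · have h12 : (fun l => if j₀ < j then
          ZT_D c v j l * (u l - v l) ^ ((j : ℕ) - (j₀ : ℕ) - 1) else 0) = fun _ : ℕ => (0 : ℝ) := by
        funext l
        exact if_neg hj
      show Bdd X fun l => if j₀ < j then
          ZT_D c v j l * (u l - v l) ^ ((j : ℕ) - (j₀ : ℕ) - 1) else 0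
      rw [h12]
      exact h8 0
  have hwR := h2 _ _ huv hR
  obtain ⟨θ, hθ0, -, hθ⟩ := h3 _ hj₀
  filter_upwards [hzero', hθ, hwR θ hθ0, hne] with l hl1 hl2 hl3 hl4
  rw [ZT_taylor c u v l]
  have key : ∑ j : Fin (d + 1), ZT_D c v j l * (u l - v l) ^ (j : ℕ) =
      (u l - v l) ^ (j₀ : ℕ) * (ZT_D c v j₀ l + (u l - v l) * ∑ j : Fin (d + 1), if j₀ < j then
        ZT_D c v j l * (u l - v l) ^ ((j : ℕ) - (j₀ : ℕ) - 1) else 0) := by
    have h12 : ∀ j : Fin (d + 1), ZT_D c v j l * (u l - v l) ^ (j : ℕ) =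
        (if j = j₀ then (u l - v l) ^ (j₀ : ℕ) * ZT_D c v j₀ l else 0) +
        (u l - v l) ^ (j₀ : ℕ) * ((u l - v l) * (if j₀ < j then
        ZT_D c v j l * (u l - v l) ^ ((j : ℕ) - (j₀ : ℕ) - 1) else 0)) := by
      intro j
      rcases lt_trichotomy j j₀ with hj | hj | hj
      · rw [hl1 j hj, if_neg hj.ne, if_neg (not_lt.2 hj.le)]
        ring
      · rw [hj, if_pos rfl, if_neg (lt_irrefl _)]
        ring
      · rw [if_neg hj.ne', if_pos hj]
        have h13 : (j : ℕ) = (j₀ : ℕ) + 1 + ((j : ℕ) - (j₀ : ℕ) - 1) := by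
          have h14 : (j₀ : ℕ) < (j : ℕ) := hj
          omega
        have h15 : (u l - v l) ^ (j : ℕ) = (u l - v l) ^ (j₀ : ℕ) * (u l - v l) *
            (u l - v l) ^ ((j : ℕ) - (j₀ : ℕ) - 1) := by
          rw [← pow_succ, ← pow_add, ← h13]
        rw [h15]
        ring
    rw [Finset.sum_congr rfl fun j _ => h12 j, Finset.sum_add_distrib, Finset.sum_ite_eq',
      if_pos (Finset.mem_univ _), ← Finset.mul_sum, ← Finset.mul_sum]
    ring
  rw [key]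
  refine mul_ne_zero (pow_ne_zero _ (sub_ne_zero.2 hl4)) ?_
  intro h0
  have h13 : ZT_D c v j₀ l = -((u l - v l) * ∑ j : Fin (d + 1), if j₀ < j then
      ZT_D c v j l * (u l - v l) ^ ((j : ℕ) - (j₀ : ℕ) - 1) else 0) := by linarith
  rw [h13, abs_neg] at hl2
  exact absurd (lt_of_lt_of_le hl2 hl3) (lt_irrefl _)

end Pool.Agent.Work.MP_f1a024_nt.TZ
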