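import Pool.Agent.Work.MP_f1a024_nt.TZ.Stmts

/-!
# Block TZ, item ZZ: a negligible value of a formal series is zero
-/

namespace Pool.Agent.Work.MP_f1a024_nt.TZ

open Finset MvPolynomial Filter
open Pool.Agent.Work.MP_f1a024_nt.AH (PG val D1 D2 D4)
open Pool.Agent.Work.MP_f1a024_nt.TU
open Pool.Agent.Work.MP_f1a024_nt.TV

theorem ZZ_num (m : ℕ) (hm : 1 ≤ m) (c : ℝ) (hc : 0 < c)
    (h : Real.exp (-(1 * (m : ℝ))) * c ^ m ≤ 2 * (c / 8) ^ m) : False := by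
  have h1 : Real.exp (m : ℝ) ≤ 3 ^ m := by
    have : Real.exp (m : ℝ) = Real.exp 1 ^ m := by rw [← Real.exp_nat_mul, mul_one]
    rw [this]
    exact pow_le_pow_left₀ (Real.exp_pos 1).le (by linarith [Real.exp_one_lt_d9]) m
  have hcm : 0 < c ^ m := by positivity
  rw [one_mul, Real.exp_neg, div_pow] at h
  have h2 : (8 : ℝ) ^ m ≤ 2 * Real.exp (m : ℝ) := by
    have h3 : 0 < Real.exp (m : ℝ) := Real.exp_pos _
    have h4 : (0 : ℝ) < 8 ^ m := by positivity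
    have h5 := mul_le_mul_of_nonneg_right h (mul_pos h3 h4).le
    have h6 : (Real.exp (m : ℝ))⁻¹ * c ^ m * (Real.exp (m : ℝ) * 8 ^ m) = c ^ m * 8 ^ m := by
      field_simp
    have h7 : 2 * (c ^ m / 8 ^ m) * (Real.exp (m : ℝ) * 8 ^ m) =
        c ^ m * (2 * Real.exp (m : ℝ)) := by
      field_simp
    rw [h6, h7] at h5
    exact le_of_mul_le_mul_left h5 hcm
  have h3 : (8 : ℝ) ^ m = 2 ^ m * 4 ^ m := by rw [← mul_pow]; norm_num
  have h4 : (2 : ℝ) ≤ 2 ^ m := by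
    calc (2 : ℝ) = 2 ^ 1 := by norm_num
      _ ≤ 2 ^ m := pow_le_pow_right₀ (by norm_num) hm
  have h5 : (3 : ℝ) ^ m < 4 ^ m := pow_lt_pow_left₀ (by norm_num) (by norm_num) (by omega)
  have h6 : (0 : ℝ) < 4 ^ m := by positivity
  rw [h3] at h2
  nlinarith [mul_le_mul_of_nonneg_right h4 h6.le]

theorem ZZ_sum {κ : ℕ} (hC1 : C1) (w : Fin κ → ℕ) (h : Ev κ → ℚ) (S' : Finset (Ev κ)) :
    ((evw w (∑ b ∈ S', monomial b (h b)) : ℚ) : ℝ) =
      ∑ b ∈ S', ((h b : ℚ) : ℝ) * ((mo w b : ℚ) : ℝ) := by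
  rw [map_sum]
  push_cast
  refine Finset.sum_congr rfl fun b _ => ?_
  rw [(hC1 κ).2.2.2.2.1 w b (h b)]
  push_cast
  rfl

theorem ZZ_tail {B : Type} [DecidableEq B] (F : B → ℝ) (hF : Summable fun b => |F b|)
    (S S' : Finset B) (hS : S ⊆ S') :
    |∑' b, F b - ∑ b ∈ S', F b| ≤ ∑' b : {b // b ∉ S}, |F b| := by
  have h0 : Summable F := hF.of_abs
  have h1 := h0.sum_add_tsum_subtype_compl S'
  have h2 := hF.sum_add_tsum_subtype_compl S'
  have h3 := hF.sum_add_tsum_subtype_compl S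
  have h4 : ∑ b ∈ S, |F b| ≤ ∑ b ∈ S', |F b| :=
    Finset.sum_le_sum_of_subset_of_nonneg hS fun b _ _ => abs_nonneg _
  have h5 : |∑' b : {b // b ∉ S'}, F b| ≤ ∑' b : {b // b ∉ S'}, |F b| := by
    have := norm_tsum_le_tsum_norm (f := fun b : {b // b ∉ S'} => F b)
      (hF.comp_injective Subtype.val_injective)
    simpa only [Real.norm_eq_abs] using this
  have h6 : ∑' b, F b - ∑ b ∈ S', F b = ∑' b : {b // b ∉ S'}, F b := by
    rw [← h1]
    ring
  rw [h6]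
  linarith

/-- Item ZZ. -/
theorem prfZZ (hC1 : C1) (hB0 : B0) : ZZ := by
  classical
  rintro κ X y ⟨h, hsum, htail⟩ hneg
  by_cases h0 : ∀ b, h b = 0
  · filter_upwards [hsum] with l hl
    rw [hl.2]
    simp [h0]
  · push Not at h0
    obtain ⟨b₀, hb₀⟩ := h0
    obtain ⟨c, hc0, _, hc⟩ := (hC1 κ).2.2.2.2.2.2.2.1 X b₀
    have hθ : 0 < c / 8 := by positivity
    obtain ⟨S, hS⟩ := htail (c / 8) hθ
    have hcoeff : (∑ b ∈ insert b₀ S, monomial b (h b) : Rv κ).coeff b₀ = h b₀ := by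
      rw [coeff_sum, Finset.sum_eq_single b₀]
      · rw [coeff_monomial, if_pos rfl]
      · intro b _ hb
        rw [coeff_monomial, if_neg hb]
      · intro hb
        exact absurd (Finset.mem_insert_self _ _) hb
    have hsupp : b₀ ∈ (∑ b ∈ insert b₀ S, monomial b (h b) : Rv κ).support := by
      rw [mem_support_iff, hcoeff]
      exact hb₀
    have hg : (∑ b ∈ insert b₀ S, monomial b (h b) : Rv κ) ≠ 0 := by
      intro hg0
      rw [hg0] at hsupp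
      simp at hsupp
    filter_upwards [hsum, hS, hneg _ hθ, hc, hB0 κ X _ 1 hg one_pos, X.hm 1] with l h1 h2 h3 h4
      h5 h6
    exfalso
    have hmo : ∀ b, 0 ≤ ((mo (X.w l) b : ℚ) : ℝ) := by
      intro b
      exact_mod_cast ((hC1 κ).2.2.1 (X.w l) b).1.le
    have habs : ∀ b, |((h b : ℚ) : ℝ) * ((mo (X.w l) b : ℚ) : ℝ)| =
        |((h b : ℚ) : ℝ)| * ((mo (X.w l) b : ℚ) : ℝ) := by
      intro b
      rw [abs_mul, abs_of_nonneg (hmo b)]
    have h7 := ZZ_tail (fun b => ((h b : ℚ) : ℝ) * ((mo (X.w l) b : ℚ) : ℝ))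
      (by simp only [habs]; exact h1.1) S (insert b₀ S) (Finset.subset_insert _ _)
    simp only [habs] at h7
    rw [← h1.2, ← ZZ_sum hC1] at h7
    have h8 := h5 b₀ hsupp
    have h9 : |((evw (X.w l) (∑ b ∈ insert b₀ S, monomial b (h b)) : ℚ) : ℝ)| ≤
        2 * (c / 8) ^ X.m l := by
      have h10 := abs_sub_abs_le_abs_sub
        ((evw (X.w l) (∑ b ∈ insert b₀ S, monomial b (h b)) : ℚ) : ℝ) (y l)
      rw [abs_sub_comm] at h10
      linarith
    have h11 : Real.exp (-(1 * (X.m l : ℝ))) * c ^ X.m l ≤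
        Real.exp (-(1 * (X.m l : ℝ))) * ((mo (X.w l) b₀ : ℚ) : ℝ) :=
      mul_le_mul_of_nonneg_left h4 (Real.exp_pos _).le
    exact ZZ_num (X.m l) h6 c hc0 (h11.trans (h8.trans h9))

end Pool.Agent.Work.MP_f1a024_nt.TZ
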