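import Pool.Agent.Work.MP_f1a024_nt.TV.Final
import Pool.Agent.Work.MP_f1a024_nt.TZ.ZS
import Pool.Agent.Work.MP_f1a024_nt.TZ.ZZ
import Pool.Agent.Work.MP_f1a024_nt.TZ.ZL
import Pool.Agent.Work.MP_f1a024_nt.TZ.ZB
import Pool.Agent.Work.MP_f1a024_nt.TZ.ZM
import Pool.Agent.Work.MP_f1a024_nt.TZ.ZN
import Pool.Agent.Work.MP_f1a024_nt.TZ.ZP
import Pool.Agent.Work.MP_f1a024_nt.TZ.ZQ
import Pool.Agent.Work.MP_f1a024_nt.TZ.ZT
import Pool.Agent.Work.MP_f1a024_nt.TZ.Z1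
import Pool.Agent.Work.MP_f1a024_nt.TZ.ZC1
import Pool.Agent.Work.MP_f1a024_nt.TZ.ZC2
import Pool.Agent.Work.MP_f1a024_nt.TZ.ZC3
import Pool.Agent.Work.MP_f1a024_nt.TZ.ZI
import Pool.Agent.Work.MP_f1a024_nt.TZ.ZF
import Pool.Agent.Work.MP_f1a024_nt.TZ.ZH
import Pool.Agent.Work.MP_f1a024_nt.TZ.ZG

/-!
# Block TZ: assembly of THEOREM Z
-/

namespace Pool.Agent.Work.MP_f1a024_nt.TZ

open Pool.Agent.Work.MP_f1a024_nt.TU
open Pool.Agent.Work.MP_f1a024_nt.TV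

theorem zs : ZS := prfZS c1
theorem zz : ZZ := prfZZ c1 b0
theorem zl : ZL := prfZL c1
theorem zb : ZB := prfZB na c1 su la zs zz
theorem zp : ZP := prfZP prfVEU
theorem zq : ZQ := prfZQ zp
theorem zt : ZT := prfZT na
theorem z1 : Z1 := prfZ1 ax vta lb1 vlb
theorem zc1 : ZC1 := prfZC1 na ax zs zl zb prfZN zq zt z1
theorem zc2 : ZC2 := prfZC2 na c1 ax vta lb1 zp z1
theorem zc3 : ZC3 := prfZC3 ax vta lb1 vlb
theorem zi : ZI := prfZI na ax vta prfZM prfZN zc1 zc2 zc3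
theorem zf : ZF := prfZF us zi
theorem zg : ZG := prfZG prfVCH zf prfZH

end Pool.Agent.Work.MP_f1a024_nt.TZ
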