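import Pool.Agent.Work.MP_f1a024_nt.TV.Stmts

/-!
# Block TZ: one character of arbitrary modulus (THEOREM Z)

For all `k, d, C, B` there is `M` such that for all `m ≥ M`, all different `n_1, ..., n_k` in
`[m, C m]`, every `a ≤ k`, every nontrivial real Dirichlet character `χ` of ANY modulus and every
nonzero integer polynomial `P` in `X, Y_1, ..., Y_k`, of degree at most `d` in each variable with
coefficients bounded by `B ^ m`, homogeneous for the weights `n_a, n_1, ..., n_k`: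
`P(L(n_a, χ), ζ(n_1), ..., ζ(n_k)) ≠ 0`.

Idea: otherwise there are sequences; along an ultrafilter `𝒰` the functions `χ_l` converge to a
completely multiplicative `f`, and `u_l = L(n_a, χ_l)` is superexponentially close to
`u_l' = L(n_a, f)`. If `f` is eventually constant `1` or `-1` on the primes then `u_l ≠ u_l'` and we
use the Taylor expansion at `u_l'`, whose coefficients are either `0` or not negligible (sums with
integer coefficients of values of formal series). Otherwise `P(u_l', ...)` is not negligible.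

Notation in the proofs as in `TU/Stmts.lean`.
-/

namespace Pool.Agent.Work.MP_f1a024_nt.TZ

open Finset MvPolynomial Filter
open Pool.Agent.Work.MP_f1a024_nt.AH (PG val D1 D2 D4)
open Pool.Agent.Work.MP_f1a024_nt.TU
open Pool.Agent.Work.MP_f1a024_nt.TV

/-- values of formal series: `y = ∑_b h_b z^b`, absolutely convergent, with tails smaller than every
`θ ^ m` -/
def Ser {κ : ℕ} (X : Cx κ) (y : ℕ → ℝ) : Prop :=
  ∃ h : Ev κ → ℚ,
    (∀ᶠ l : ℕ in (X.𝒰 : Filter ℕ),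
      (Summable fun b => |((h b : ℚ) : ℝ)| * ((mo (X.w l) b : ℚ) : ℝ)) ∧
        y l = ∑' b, ((h b : ℚ) : ℝ) * ((mo (X.w l) b : ℚ) : ℝ)) ∧
    ∀ θ : ℝ, 0 < θ → ∃ S : Finset (Ev κ), ∀ᶠ l : ℕ in (X.𝒰 : Filter ℕ),
      (∑' b : {b : Ev κ // b ∉ S}, |((h b : ℚ) : ℝ)| * ((mo (X.w l) b : ℚ) : ℝ)) ≤ θ ^ X.m l

/-- `f` is not eventually constant on the primes -/
def NC (f : ℕ → ℚ) : Prop :=
  ∀ N : ℕ, ∃ q q' : ℕ, q.Prime ∧ q'.Prime ∧ N < q ∧ N < q' ∧ f q ≠ f q'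

/-- the zeta function: the value at `n` of the series of the constant function `1` -/
noncomputable def ze (n : ℕ) : ℝ := val (fq (fun _ => 1) ∅) n

/-- `∏_j ζ(n_j) ^ J_j` -/
noncomputable def tz {k d : ℕ} (n : Fin k → ℕ) (J : Fin k → Fin (d + 1)) : ℝ :=
  ∏ j, ze (n j) ^ (J j : ℕ)

/-! ## Part 1: values of formal series -/

/-- ZS (MEDIUM): closure properties. (1) with `S` for `θ` take `g = ∑_{b ∈ S} monomial b (h b)`: the
difference `y - evw w g` is the sum over `b ∉ S` (`Summable.sum_add_tsum_subtype_compl` or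
`Finset` version), at most the tail (C1 (4), (5); `Free ∅ g` is trivial). (2) `h + h'`; for the tails take
`S ∪ S'` for `θ / 2` (the tail over a smaller set of indices is smaller; `2 (θ/2)^m ≤ θ^m`). (3) the
Cauchy product `h''(b) = ∑_{(a,a') ∈ antidiagonal b} h a h' a'` (`Ev κ = Vr κ →₀ ℕ` has
antidiagonals); for a.a. `l` both families `h a mo a`, `h' a' mo a'` are absolutely summable, so
`tsum_mul_tsum_eq_tsum_sum_antidiagonal_of_summable_norm` and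
`summable_norm_sum_mul_antidiagonal_of_summable_norm` with `mo (a + a') = mo a * mo a'` (C1). Tails: the
total sums `t, t'` of `|h| mo`, `|h'| mo` are at most `A + 1` with `A` constant (`S` for `θ = 1`, `mo ≤ 1`);
for `S, S'` belonging to `θ' = θ / (4 (A + 1))` (`θ' ≤ 1`) put `S'' = S + S'` (image of the sum); if
`b ∉ S''` and `a + a' = b` then `a ∉ S` or `a' ∉ S'`, so the tail of `h''` over `b ∉ S''` is at most
`tail_S t' + t tail_S' ≤ 2 (A + 1) θ'^m ≤ θ^m` (`m ≥ 1`). (4) `h = coeff g`, finite support. (5) clear. (6),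
(7) induction with (2), (3), (4) (constants are values of constant polynomials), (8) from (7) or
induction. -/
def ZS : Prop :=
  ∀ (κ : ℕ) (X : Cx κ),
    (∀ y : ℕ → ℝ, Ser X y → Apx X ∅ y) ∧
    (∀ y z : ℕ → ℝ, Ser X y → Ser X z → Ser X fun l => y l + z l) ∧
    (∀ y z : ℕ → ℝ, Ser X y → Ser X z → Ser X fun l => y l * z l) ∧
    (∀ g : Rv κ, Ser X fun l => ((evw (X.w l) g : ℚ) : ℝ)) ∧
    (∀ y z : ℕ → ℝ, (∀ᶠ l : ℕ in (X.𝒰 : Filter ℕ), y l = z l) → Ser X y → Ser X z) ∧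
    (∀ (ι : Type) (s : Finset ι) (y : ι → ℕ → ℝ), (∀ i ∈ s, Ser X (y i)) →
      Ser X fun l => ∑ i ∈ s, y i l) ∧
    (∀ (ι : Type) (s : Finset ι) (y : ι → ℕ → ℝ), (∀ i ∈ s, Ser X (y i)) →
      Ser X fun l => ∏ i ∈ s, y i l) ∧
    ∀ (y : ℕ → ℝ) (e : ℕ), Ser X y → Ser X fun l => y l ^ e

/-- ZZ (EASY-MEDIUM): a negligible value of a formal series is zero. If all `h b = 0` then `y l = 0`
a.a. Otherwise let `h b₀ ≠ 0`, `c` the constant of C1 (8) for `b₀`, `θ = c / 8`. Take `S` for `θ`,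
`S' = S ∪ {b₀}`, `g = ∑_{b ∈ S'} monomial b (h b)`; its coefficient at `b₀` is `h b₀ ≠ 0`. The tail over
the complement of `S'` is at most the tail over the complement of `S`, so
`|evw w g| ≤ |y| + θ^m ≤ 2 θ^m` a.a. By B0 (`ε = 1`) `exp(-m) c^m ≤ exp(-m) mo w b₀ ≤ |evw w g| ≤ 2 (c/8)^m` a.a.,
which is false for `m ≥ 2` (`e < 4`, `(c/4)^m > 2 (c/8)^m`). -/
def ZZ : Prop :=
  ∀ (κ : ℕ) (X : Cx κ) (y : ℕ → ℝ), Ser X y → Neg X y →
    ∀ᶠ l : ℕ in (X.𝒰 : Filter ℕ), y l = 0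

/-- ZL (MEDIUM): `L`-values are values of formal series. Let `n_j = ∑_i A_i w_i + c` a.a. (`Rep`). For
`s ≥ 1` let `b_s (p, i) = A_i v_p(s)` (see `VTA`/`TTA` for its construction); some `A_i > 0`
(otherwise `n_j = c` a.a., but `n_j ≥ m` tends to infinity), so `s ↦ b_s` is injective on the positive
integers, and `mo w (b_s) = s^(-(n_j - c))` a.a. Put `h (b_s) = f(s) s^(-c)` (zpow) for `s ≥ 1` and `h b = 0` for all
other `b`. Then `h (b_s) mo w (b_s) = f(s) / s^(n_j)`, summable for `n_j ≥ 2`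
(`|f(s)| ≤ 1`), and the sum over the range of `s ↦ b_s` is `val (fq f ∅) (n_j)`
(`Function.Injective.tsum_eq`, `summable_iff` on the range). Tails: `N` with `1/N ≤ θ/2`,
`S = {b_s : 1 ≤ s < N}`: the tail is at most `∑_{s ≥ N} s^(-n) ≤ N^2 N^(-n) ∑_s s^(-2) ≤ 2 N^2 (θ/2)^m ≤ θ^m`
a.a. (`n = n_j ≥ m ≥ 2`, `m` large). -/
def ZL : Prop :=
  ∀ (κ : ℕ) (X : Cx κ) (k : ℕ) (n : ℕ → Fin k → ℕ), Arg X n → ∀ f : ℕ → ℚ, CM f →
    ∀ j : Fin k, Ser X fun l => val (fq f ∅) (n l j)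

/-- ZB (MEDIUM, like LB1): integer combinations of values of formal series are `0` or not
negligible. Induction on `card ι` (for all `ι`, `f`, `x`); `card ι = 0` is clear. If a.a. `x l = 0`
the claim holds; otherwise (ultrafilter) a.a. `x l ≠ 0`. If all `f i` are negligible, they are `0` a.a.
(ZZ) and the claim holds. Let `f k` be not negligible. LA (`Apx` by ZS (1)) gives `g ≠ 0` with
`∑ evw w (g_i) x_i = 0` a.a.; let `g_j ≠ 0`, and on `ι' = {i // i ≠ j}` put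
`f'_i = evw w (g_j) f_i - evw w (g_i) f_j`, values of formal series by ZS (write it as
`evw w (g_j) f_i + evw w (-g_i) f_j`). As in LB1, a.a.
`∑_{i ≠ j} x_i f'_i = evw w (g_j) ∑_i x_i f_i`, which is negligible (NA (2), C1 (9)). By induction
`∑_{i ≠ j} x_i f'_i = 0` a.a., and `evw w (g_j) ≠ 0` a.a. (SU), so `∑_i x_i f_i = 0` a.a. -/
def ZB : Prop :=
  ∀ (κ : ℕ), 0 < κ → ∀ (X : Cx κ) (ι : Type) [Fintype ι] [DecidableEq ι] (f : ι → ℕ → ℝ)
    (x : ℕ → ι → ℤ), (∀ i, Ser X (f i)) → (∀ i, Bdd X fun l => (x l i : ℝ)) →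
    (Neg X fun l => ∑ i, (x l i : ℝ) * f i l) →
    ∀ᶠ l : ℕ in (X.𝒰 : Filter ℕ), ∑ i, (x l i : ℝ) * f i l = 0

/-! ## Part 2: the limit function -/

/-- ZM (EASY): the limit. For every `s` the value `F l s` is in the finite set `{0, 1, -1}`, so one of
the three holds a.a.; `f s` is this value. `f 1 = 1`, `f (a b) = f a f b` and the values: for a.a. `l`
the corresponding property of `F l` and `F l s = f s` for the finitely many `s` involved. -/
def ZM : Prop :=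
  ∀ (𝒰 : Ultrafilter ℕ) (F : ℕ → ℕ → ℚ), (∀ l, CM (F l)) → ∃ f : ℕ → ℚ, CM f ∧
    ∀ s : ℕ, ∀ᶠ l : ℕ in (𝒰 : Filter ℕ), F l s = f s

/-- ZN (EASY-MEDIUM): closeness. Given `θ` take `N ≥ 2` with `1/N ≤ θ/2`. A.a. `F l s = f s` for
all `s < N` (finitely many), so with `n = n l j ≥ m ≥ 2` the difference is at most
`∑_{s ≥ N} 2 s^(-n) ≤ 2 N^2 N^(-n) ∑_s s^(-2) ≤ 4 N^2 (θ/2)^m ≤ θ^m` a.a. -/
def ZN : Prop :=
  ∀ (κ : ℕ) (X : Cx κ) (k : ℕ) (n : ℕ → Fin k → ℕ), Arg X n → ∀ (F : ℕ → ℕ → ℚ) (f : ℕ → ℚ),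
    (∀ l, CM (F l)) → CM f → (∀ s : ℕ, ∀ᶠ l : ℕ in (X.𝒰 : Filter ℕ), F l s = f s) →
    ∀ j : Fin k, Neg X fun l => val (fq (F l) ∅) (n l j) - val (fq f ∅) (n l j)

/-- ZP (EASY-MEDIUM): finite Euler products. (1) induction on `Q` with VEU
(`Finset.induction_on`). (2) if `Q` contains all primes `< N` (`N ≥ 2`) then every `s` with `1 < s < N`
has a prime factor in `Q`, so `fq f Q s = 0`, and `fq f Q 1 = 1`: the difference is at most
`∑_{s ≥ N} s^(-n)`. (3) so it tends to `1` (tail of a convergent series): given `ε > 0` there is `N`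
such that for all `Q` containing the primes below `N` the distance to `1` is at most `ε`. -/
def ZP : Prop :=
  (∀ (f : ℕ → ℚ), CM f → ∀ (Q : Finset Nat.Primes), ∀ n ≥ 2,
    val (fq f ∅) n * ∏ q ∈ Q, (1 - ((f q : ℚ) : ℝ) * (((q : ℕ) : ℝ) ^ n)⁻¹) = val (fq f Q) n) ∧
  ∀ (f : ℕ → ℚ), CM f → ∀ n ≥ 2, ∀ ε : ℝ, 0 < ε → ∃ N : ℕ, ∀ Q : Finset Nat.Primes,
    (∀ q : Nat.Primes, (q : ℕ) < N → q ∈ Q) → |val (fq f Q) n - 1| ≤ ε

/-- ZQ (EASY-MEDIUM): strict inequality. Write `r_q = (1 - f(q) z_q) / (1 - g(q) z_q)`, `z_q = q^(-n)`.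
By ZP for `Q` = all primes `< N`, `val (fq g ∅) n / val (fq f ∅) n` is the limit (`N → ∞`) of
`∏_{q < N} r_q` (both `val (fq _ Q) n` tend to `1`, so both `val (fq _ ∅) n` are `≠ 0`: the product is
nonzero and `val (fq _ Q) n` is near `1`). For `q ≤ N₀` `r_q = 1`. Let `σ = 1`: for `q > N₀`
`r_q = (1 - z_q)/(1 - g(q) z_q) ≤ 1` (`g(q) ≤ 1`), all factors are positive, and
`r_{q₁} ≤ 1 - z_{q₁} < 1` (`g(q₁) ≤ 0`); so all partial products with `N > q₁` are at most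
`1 - z_{q₁}`, and the quotient is `< 1`. Let `σ = -1`: `r_q = (1 + z_q)/(1 - g(q) z_q) ≥ 1`, and
`r_{q₁} ≥ 1 + z_{q₁}` (`g(q₁) ≥ 0`), so the quotient is `> 1`. -/
def ZQ : Prop :=
  ∀ (f g : ℕ → ℚ) (σ : ℚ) (N₀ q₁ : ℕ), CM f → CM g → (σ = 1 ∨ σ = -1) →
    (∀ q : ℕ, q.Prime → N₀ < q → f q = σ) → (∀ q : ℕ, q.Prime → q ≤ N₀ → g q = f q) →
    q₁.Prime → N₀ < q₁ → g q₁ ≠ σ → ∀ n ≥ 2, val (fq g ∅) n ≠ val (fq f ∅) n

/-- ZT (MEDIUM): the Taylor argument. Write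
`D_j = ∑_{e ≤ d} C(e, j) c_e v^(e - j)` (the terms with `e < j` are `0`). Then
`∑_e c_e u^e = ∑_j D_j (u - v)^j` (binomial theorem for `u^e = (v + (u - v))^e`). Let `j` be the
smallest index with `D_j` not negligible. For `j' < j` `D_j' = 0` a.a. So a.a.
`∑_e c_e u^e = (u - v)^j (D_j + (u - v) R)`, `R = ∑_{j' > j} D_j' (u - v)^(j' - j - 1)`, where `R` is `Bdd`
(NA: the `D_j'` are, `v` and `c_e` being `Bdd`, and so is `u - v`, which is negligible), so `(u - v) R` is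
negligible, and with `θ` of NA (3) for `D_j`, a.a. `|(u - v) R| ≤ θ^m < |D_j|`. As `u ≠ v` a.a., the
sum is not `0`. -/
def ZT : Prop :=
  ∀ (κ : ℕ) (X : Cx κ) (d : ℕ) (c : Fin (d + 1) → ℕ → ℝ) (u v : ℕ → ℝ), (∀ e, Bdd X (c e)) →
    Bdd X v → (Neg X fun l => u l - v l) → (∀ᶠ l : ℕ in (X.𝒰 : Filter ℕ), u l ≠ v l) →
    (∀ j : Fin (d + 1),
      (Neg X fun l => ∑ e : Fin (d + 1),
        (((e : ℕ).choose (j : ℕ) : ℕ) : ℝ) * c e l * v l ^ ((e : ℕ) - (j : ℕ))) →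
      ∀ᶠ l : ℕ in (X.𝒰 : Filter ℕ), ∑ e : Fin (d + 1),
        (((e : ℕ).choose (j : ℕ) : ℕ) : ℝ) * c e l * v l ^ ((e : ℕ) - (j : ℕ)) = 0) →
    (∃ j : Fin (d + 1), ¬ Neg X fun l => ∑ e : Fin (d + 1),
      (((e : ℕ).choose (j : ℕ) : ℕ) : ℝ) * c e l * v l ^ ((e : ℕ) - (j : ℕ))) →
    ∀ᶠ l : ℕ in (X.𝒰 : Filter ℕ), ∑ e : Fin (d + 1), c e l * u l ^ (e : ℕ) ≠ 0

/-! ## Part 3: the three cases -/

/-- Z1 (EASY-MEDIUM): the zeta values alone. VLB for `ρ = Unit`, `f = 1` (`CM`, `IP` are clear: for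
`e ≠ 0` every prime will do) says: if `∑_J evw w (g_J) tz (n l) J` is negligible then `g = 0` (transport
along `Unit × Fin k ≃ Fin k`; `tJ` for `Unit` is `tz`). With LB1 and `Apx` (ZS (1), (7), (8), ZL):
for `x` `Bdd`, `x l ≠ 0` a.a., the sum is not negligible. -/
def Z1 : Prop :=
  ∀ (κ : ℕ), 0 < κ → ∀ (X : Cx κ) (k d : ℕ) (n : ℕ → Fin k → ℕ), Arg X n →
    (∀ g : (Fin k → Fin (d + 1)) → Rv κ,
      (Neg X fun l => ∑ J, ((evw (X.w l) (g J) : ℚ) : ℝ) * tz (n l) J) → g = 0) ∧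
    ∀ x : ℕ → (Fin k → Fin (d + 1)) → ℤ, (∀ᶠ l : ℕ in (X.𝒰 : Filter ℕ), x l ≠ 0) →
      (∀ J, Bdd X fun l => (x l J : ℝ)) → ¬ Neg X fun l => ∑ J, (x l J : ℝ) * tz (n l) J

/-- ZC1 (MEDIUM): `f` is eventually `σ = 1` or `-1`. Put `u l = val (fq (F l) ∅) (n l a)`,
`v l = val (fq f ∅) (n l a)`, `c_e = ∑_J x_(e,J) tz n J`. ZT applies: `c_e`, `v` are `Bdd` (AX (1), ZS
(1), ZL, NA); `u - v` is negligible (ZN); `u ≠ v` a.a. by ZQ, because a.a. `F l q = f q` for all `q ≤ N₀`,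
and `NC (F l)` gives a prime `q₁ > N₀` with `F l q₁ ≠ σ` (one of two primes with different values). The
sums `D_j = ∑_(e,J) (C(e,j) x_(e,J)) (v^(e-j) tz n J)` are integer combinations of values of formal
series (ZL, ZS), so ZB gives the alternative. By the ultrafilter the largest `e` with some
`x_(e,J) ≠ 0` is the same number `e'` for a.a. `l` (`x l ≠ 0` a.a.); then
`D_{e'} = ∑_J x_(e',J) tz n J` a.a. (the terms with `e > e'` vanish, those with `e < e'` have `C(e, e') = 0`),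
which is not negligible by Z1. -/
def ZC1 : Prop :=
  ∀ (κ : ℕ), 0 < κ → ∀ (X : Cx κ) (k d : ℕ) (n : ℕ → Fin k → ℕ) (a : Fin k) (F : ℕ → ℕ → ℚ)
    (f : ℕ → ℚ) (x : ℕ → Fin (d + 1) × (Fin k → Fin (d + 1)) → ℤ) (σ : ℚ) (N₀ : ℕ), Arg X n →
    (∀ l, CM (F l)) → (∀ l, NC (F l)) → CM f →
    (∀ s : ℕ, ∀ᶠ l : ℕ in (X.𝒰 : Filter ℕ), F l s = f s) →
    (∀ᶠ l : ℕ in (X.𝒰 : Filter ℕ), x l ≠ 0) → (∀ v, Bdd X fun l => (x l v : ℝ)) →
    (σ = 1 ∨ σ = -1) → (∀ q : ℕ, q.Prime → N₀ < q → f q = σ) →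
    ∀ᶠ l : ℕ in (X.𝒰 : Filter ℕ),
      ∑ v, (x l v : ℝ) * (val (fq (F l) ∅) (n l a) ^ (v.1 : ℕ) * tz (n l) v.2) ≠ 0

/-- ZC2 (MEDIUM): `f` is eventually `0` on the primes. Write `v l = val (fq f ∅) (n l a)`. Let `Q` be
the set of the primes `≤ N₀`. By ZP `v * G = val (fq f Q) (n_a) = 1`, `G = ∏_{q ∈ Q} (1 - f(q) q^(-n_a))`,
because `fq f Q s = 0` for all `s > 1` (`s` has a prime factor; if it is `≤ N₀` it is in `Q`, otherwise
`f` vanishes at it). `G = evw w g` a.a. for a polynomial `g` (as in VHQ: `q^(-n_a)` is the value of a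
monomial), and `g ≠ 0` (its value is not `0`). By the homogeneity, for every `J` there is at most one
`e` with `x_(e,J) ≠ 0` (two such `e` would give `e n_a = e' n_a`, `n_a > 0`); let `α_l(J)` be this `e`
(`0` if there is none); by the ultrafilter `α = α_l` is the same for a.a. `l`. Then a.a.
`G^d ∑_(e,J) x_(e,J) v^e tz n J = ∑_J x_(α(J),J) G^(d - α(J)) tz n J`. The family
`F_J = evw w (g^(d - α(J))) tz n J` is in `Apx X ∅` and independent: if `∑ evw w (h_J) F_J` is negligible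
then `h_J g^(d - α(J)) = 0` by Z1, so `h_J = 0`. The vector `(x_(α(J),J))_J` is `Bdd` and `≠ 0` a.a. By LB1
the sum is not negligible, so `∑_(e,J) x_(e,J) v^e tz n J` is not negligible (`G` is `Bdd`; NA (2)). -/
def ZC2 : Prop :=
  ∀ (κ : ℕ), 0 < κ → ∀ (X : Cx κ) (k d : ℕ) (n : ℕ → Fin k → ℕ) (a : Fin k)
    (f : ℕ → ℚ) (x : ℕ → Fin (d + 1) × (Fin k → Fin (d + 1)) → ℤ) (N₀ : ℕ), Arg X n → CM f →
    (∀ᶠ l : ℕ in (X.𝒰 : Filter ℕ), x l ≠ 0) → (∀ v, Bdd X fun l => (x l v : ℝ)) →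
    (∀ᶠ l : ℕ in (X.𝒰 : Filter ℕ), ∃ W : ℕ, ∀ v, x l v ≠ 0 →
      (v.1 : ℕ) * n l a + ∑ j, (v.2 j : ℕ) * n l j = W) →
    (∀ q : ℕ, q.Prime → N₀ < q → f q = 0) →
    ¬ Neg X fun l => ∑ v, (x l v : ℝ) * (val (fq f ∅) (n l a) ^ (v.1 : ℕ) * tz (n l) v.2)

/-- ZC3 (MEDIUM): `f` is not eventually constant. For `ρ = Bool`, `false ↦ 1`, `true ↦ f`, `IP`
holds: for `e ≠ 0` and `N` take primes `q, q' > N` with `f q ≠ f q'`; if `e_true ≠ 0` the two sums
`e_false + e_true f(q)`, `e_false + e_true f(q')` are different, so one is not `0`; if `e_true = 0` then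
`e_false ≠ 0`. So by VLB the family `tJ`, `I : Bool × Fin k → Fin (d+1)`, is independent, and by LB1
(`Apx` from VTA, AX) every integer combination with a `Bdd` vector which is `≠ 0` a.a. is not
negligible. Apply this to the vector `y_I = x_(e,J)` if `I (false, j) = J j` for all `j` and
`I (true, j) = e` for `j = a`, `0` for `j ≠ a`, and `y_I = 0` if `I` is not of this form. -/
def ZC3 : Prop :=
  ∀ (κ : ℕ), 0 < κ → ∀ (X : Cx κ) (k d : ℕ) (n : ℕ → Fin k → ℕ) (a : Fin k)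
    (f : ℕ → ℚ) (x : ℕ → Fin (d + 1) × (Fin k → Fin (d + 1)) → ℤ), Arg X n → CM f → NC f →
    (∀ᶠ l : ℕ in (X.𝒰 : Filter ℕ), x l ≠ 0) → (∀ v, Bdd X fun l => (x l v : ℝ)) →
    ¬ Neg X fun l => ∑ v, (x l v : ℝ) * (val (fq f ∅) (n l a) ^ (v.1 : ℕ) * tz (n l) v.2)

/-- ZI (EASY-MEDIUM): the three cases together. Let `f` be the limit (ZM with `X.𝒰`). If `f` is
constant `σ` on the primes `> N₀` for some `N₀`: `σ = 1` or `-1` is ZC1. If `σ = 0` (ZC2) or if `f` is not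
eventually constant (`NC f`, ZC3): `S(v) = ∑ x v^e tz` (`v = val (fq f ∅) (n_a)`) is not negligible. The
difference `S(u) - S(v)`, `u = val (fq (F l) ∅) (n_a)`, is negligible: `u^e - v^e = (u - v) * Bdd` (ZN; `u`, `v`
`Bdd`: `|u|, |v| ≤ 2` for `n_a ≥ 2` or from NA), `x`, `tz` `Bdd`. So `S(u)` is not `0` a.a.: if a.a. `S(u) = 0`
then `S(v)` is negligible. (If `S(u) ≠ 0` does not hold a.a. then `S(u) = 0` a.a.) -/
def ZI : Prop :=
  ∀ (κ : ℕ), 0 < κ → ∀ (X : Cx κ) (k d : ℕ) (n : ℕ → Fin k → ℕ) (a : Fin k) (F : ℕ → ℕ → ℚ)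
    (x : ℕ → Fin (d + 1) × (Fin k → Fin (d + 1)) → ℤ), Arg X n → (∀ l, CM (F l)) →
    (∀ l, NC (F l)) → (∀ᶠ l : ℕ in (X.𝒰 : Filter ℕ), x l ≠ 0) →
    (∀ v, Bdd X fun l => (x l v : ℝ)) →
    (∀ᶠ l : ℕ in (X.𝒰 : Filter ℕ), ∃ W : ℕ, ∀ v, x l v ≠ 0 →
      (v.1 : ℕ) * n l a + ∑ j, (v.2 j : ℕ) * n l j = W) →
    ∀ᶠ l : ℕ in (X.𝒰 : Filter ℕ),
      ∑ v, (x l v : ℝ) * (val (fq (F l) ∅) (n l a) ^ (v.1 : ℕ) * tz (n l) v.2) ≠ 0

/-- the weights: `n_a` for the variable `X` (`none`), `n_j` for `Y_j` (`some j`) -/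
def wt {k : ℕ} (n : Fin k → ℕ) (a : Fin k) : Option (Fin k) → ℕ
  | none => n a
  | some j => n j

/-- the point: `u` for `X`, `ζ(n_j)` for `Y_j` -/
noncomputable def pz {k : ℕ} (u : ℝ) (n : Fin k → ℕ) : Option (Fin k) → ℝ
  | none => u
  | some j => ze (n j)

/-- ZF (MEDIUM, port of VMA): THEOREM Z for functions. Suppose it is false: for every `M = l` there are
`m_l ≥ l`, `n_l`, `a_l`, `F_l`, `P_l`, `W_l`. By the ultrafilter (`Filter.hyperfilter ℕ`) `a_l` is the same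
`a` for a.a. `l` (replace `a_l` by `a` and the other data by harmless ones for the other `l`, or state the
sum for a.a. `l` only). (`k > 0` because of `a`.) US gives `κ > 0`, `X`, with `Arg X n`. With
`x_(e,J)` = the coefficient of `P_l` at the exponent `none ↦ e`, `some j ↦ J j`: `x l ≠ 0`, `Bdd`, homogeneous
(`IsWeightedHomogeneous`: the weight `e n_a + ∑ J_j n_j` of an exponent with nonzero coefficient is
`W`; `Finsupp.weight`), and `P_l(pz) = ∑ x_(e,J) u^e tz n J` (as in VMA). ZI says that this is `≠ 0` a.a.,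
a contradiction. -/
def ZF : Prop :=
  ∀ (k d C : ℕ) (B : ℝ), ∃ M : ℕ, ∀ m ≥ M, ∀ n : Fin k → ℕ, Function.Injective n →
    (∀ j, m ≤ n j ∧ n j ≤ C * m) → ∀ (a : Fin k) (f : ℕ → ℚ), CM f → NC f →
    ∀ (P : MvPolynomial (Option (Fin k)) ℤ) (W : ℕ), P ≠ 0 → (∀ v, P.degreeOf v ≤ d) →
      (∀ s, |((P.coeff s : ℤ) : ℝ)| ≤ B ^ m) → IsWeightedHomogeneous (wt n a) P W →
      MvPolynomial.aeval (pz (val (fq f ∅) (n a)) n) P ≠ 0

/-- ZH (EASY-MEDIUM): nontrivial real characters are not eventually constant. There are arbitrarily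
large primes `q` with `q = 1` in `ZMod D` (Dirichlet: `Nat.forall_exists_prime_gt_and_eq_mod`), and
`chq χ q = 1` for them. As `χ ≠ 1` there is a unit `a` with `χ a ≠ 1` (`MulChar.ne_one_iff`), and
arbitrarily large primes `q' = a` in `ZMod D`, for which `chq χ q' = -1` or in any case `≠ 1`
(by definition of `chq`, `χ a ≠ 0`, `χ a ≠ 1`). -/
def ZH : Prop :=
  ∀ (D : ℕ) [NeZero D] (χ : DirichletCharacter ℂ D), χ ≠ 1 → NC (chq χ)

/-- the point of the final theorem -/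
noncomputable def pf {k D : ℕ} [NeZero D] (χ : DirichletCharacter ℂ D) (n : Fin k → ℕ) (a : Fin k) :
    Option (Fin k) → ℂ
  | none => χ.LFunction (n a)
  | some j => riemannZeta (n j)

/-- ZG (MEDIUM): THEOREM Z. Apply ZF with `d + 2`, `2 max |B| 1`. First part: by VCH (`n_j ≥ 2`) the
point `pf` is the complex number of the real point `pz (val (fq (chq χ) ∅) (n a)) n`, and ZH gives `NC`.
Second part (`n b = 2 n a`): put `P = A * X (some a)^2 - A' * X (some b)`. If it is `≠ 0`, it has degree at most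
`d + 2` in each variable, coefficients at most `2 B^m` (as in VFI), and it is weighted homogeneous of
weight `W + 2 n_a` (`IsWeightedHomogeneous.mul`, `isWeightedHomogeneous_X`, `.pow`, `.sub` or
`.add` with `.neg`), so `P(pf) ≠ 0`; but
`P(pf) = ζ(n_a)^2 (A(pf) - A'(pf) t(n_a)) = 0` (`ζ(n_a) ≠ 0`: `riemannZeta_ne_zero_of_one_lt_re`). -/
def ZG : Prop :=
  ∀ (k d C : ℕ) (B : ℝ), ∃ M : ℕ, ∀ m ≥ M, ∀ n : Fin k → ℕ, Function.Injective n →
    (∀ j, m ≤ n j ∧ n j ≤ C * m) → ∀ (a : Fin k) (D : ℕ) [NeZero D]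
    (χ : DirichletCharacter ℂ D), χ ^ 2 = 1 → χ ≠ 1 →
    (∀ (P : MvPolynomial (Option (Fin k)) ℤ) (W : ℕ), P ≠ 0 → (∀ v, P.degreeOf v ≤ d) →
      (∀ s, |((P.coeff s : ℤ) : ℝ)| ≤ B ^ m) → IsWeightedHomogeneous (wt n a) P W →
      MvPolynomial.aeval (pf χ n a) P ≠ 0) ∧
    ∀ (b : Fin k) (A A' : MvPolynomial (Option (Fin k)) ℤ) (W : ℕ), n b = 2 * n a →
      (∀ v, A.degreeOf v ≤ d) → (∀ v, A'.degreeOf v ≤ d) →
      (∀ s, |((A.coeff s : ℤ) : ℝ)| ≤ B ^ m) → (∀ s, |((A'.coeff s : ℤ) : ℝ)| ≤ B ^ m) →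
      IsWeightedHomogeneous (wt n a) A W → IsWeightedHomogeneous (wt n a) A' W →
      MvPolynomial.aeval (pf χ n a) A = MvPolynomial.aeval (pf χ n a) A' *
        (riemannZeta (2 * (n a : ℂ)) / riemannZeta (n a : ℂ) ^ 2) →
      A * X (some a) ^ 2 = A' * X (some b)

end Pool.Agent.Work.MP_f1a024_nt.TZ
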