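import Pool.Agent.Work.MP_f1a024_nt.TZ.Stmts

/-!
# Block TZ, item Z1: the zeta values alone (helper37)
-/

set_option autoImplicit false

namespace Pool.Agent.Work.MP_f1a024_nt.TZ

open Finset MvPolynomial Filter
open Pool.Agent.Work.MP_f1a024_nt.AH (PG val D1 D2 D4)
open Pool.Agent.Work.MP_f1a024_nt.TU
open Pool.Agent.Work.MP_f1a024_nt.TV

/-- the equivalence of the index sets -/
def Z1_e (k d : ℕ) : (Unit × Fin k → Fin (d + 1)) ≃ (Fin k → Fin (d + 1)) where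
  toFun I := fun j => I ((), j)
  invFun J := fun v => J v.2
  left_inv I := by funext v; rfl
  right_inv J := by funext j; rfl

theorem Z1_CM : ∀ i : Unit, CM ((fun (_ : Unit) (_ : ℕ) => (1 : ℚ)) i) := by
  intro i
  refine ⟨rfl, fun a b => ?_, fun a => Or.inr (Or.inl rfl)⟩
  norm_num

theorem Z1_IP : IP (fun (_ : Unit) (_ : ℕ) => (1 : ℚ)) := by
  intro e he N
  obtain ⟨q, hq, hp⟩ := Nat.exists_infinite_primes (N + 1)
  refine ⟨q, hp, by omega, ?_⟩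
  have h1 : e () ≠ 0 := by
    intro h0
    apply he
    funext i
    exact h0
  rw [Fintype.sum_unique]
  simpa using h1

theorem Z1_tJ {k d : ℕ} (n : Fin k → ℕ) (I : Unit × Fin k → Fin (d + 1)) :
    tJ (fun (_ : Unit) (_ : ℕ) => (1 : ℚ)) ∅ n I = tz n (Z1_e k d I) := by
  rw [tJ, tz, Fintype.prod_prod_type]
  rw [Fintype.prod_unique]
  rfl

theorem Z1_indep (hVLB : VLB) (κ : ℕ) (X : Cx κ) (k d : ℕ) (n : ℕ → Fin k → ℕ) (hn : Arg X n)
    (g : (Fin k → Fin (d + 1)) → Rv κ)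
    (hg : Neg X fun l => ∑ J, ((evw (X.w l) (g J) : ℚ) : ℝ) * tz (n l) J) : g = 0 := by
  have h1 := hVLB κ X Unit k d n (fun (_ : Unit) (_ : ℕ) => (1 : ℚ)) hn Z1_CM Z1_IP
    (fun I => g (Z1_e k d I)) ?_
  · funext J
    have h2 := congrFun h1 ((Z1_e k d).symm J)
    simpa using h2
  · have h3 : (fun l => ∑ J, ((evw (X.w l) (g J) : ℚ) : ℝ) * tz (n l) J) =
        fun l => ∑ I : Unit × Fin k → Fin (d + 1),
          ((evw (X.w l) (g (Z1_e k d I)) : ℚ) : ℝ) *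
            tJ (fun (_ : Unit) (_ : ℕ) => (1 : ℚ)) ∅ (n l) I := by
      funext l
      rw [← (Z1_e k d).sum_comp]
      refine Finset.sum_congr rfl fun I _ => ?_
      rw [Z1_tJ]
    rw [h3] at hg
    exact hg

theorem Z1_Apx (hAX : AX) (hVTA : VTA) (κ : ℕ) (X : Cx κ) (k d : ℕ) (n : ℕ → Fin k → ℕ)
    (hn : Arg X n) (J : Fin k → Fin (d + 1)) : Apx X ∅ fun l => tz (n l) J := by
  have h8 := (hAX κ X).2.2.2.2.2.2.2.1
  have h9 := (hAX κ X).2.2.2.2.2.2.2.2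
  have h1 := h8 ∅ (Fin k) Finset.univ (fun j l => ze (n l j) ^ (J j : ℕ)) (fun j _ =>
    h9 ∅ (fun l => ze (n l j)) (J j : ℕ)
      (hVTA κ X k n hn (fun _ => 1) (Z1_CM ()) ∅ j).1)
  exact h1

theorem prfZ1 (hAX : AX) (hVTA : VTA) (hLB1 : LB1) (hVLB : VLB) : Z1 := by
  intro κ hκ X k d n hn
  refine ⟨Z1_indep hVLB κ X k d n hn, ?_⟩
  intro x hx hb
  exact hLB1 κ hκ X (Fin k → Fin (d + 1)) (fun J l => tz (n l) J)
    (fun J => Z1_Apx hAX hVTA κ X k d n hn J)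
    (fun g hg => Z1_indep hVLB κ X k d n hn g hg) x hx hb

end Pool.Agent.Work.MP_f1a024_nt.TZ
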